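import Pool.Agent.H13.L.S8.TH107.RF.Circ

set_option autoImplicit false

namespace Pool.Agent.TH107.RF

open Matrix

variable {S : Type*} [Fintype S] [DecidableEq S]

/-- Artin relators -/
def rels (M : CoxeterMatrix S) : Set (FreeGroup S) :=
  {r | ∃ i j : S, M i j ≠ 0 ∧ r = alt (M i j) (FreeGroup.of i) (FreeGroup.of j) *
    (alt (M i j) (FreeGroup.of j) (FreeGroup.of i))⁻¹}

/-- Artin group -/
abbrev Art (M : CoxeterMatrix S) := PresentedGroup (rels M)

variable {M : CoxeterMatrix S}

/-- standard generator -/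
def sg (M : CoxeterMatrix S) (s : S) : Art M := PresentedGroup.of s

lemma sg_braid {s t : S} (h : M s t ≠ 0) :
    alt (M s t) (sg M s) (sg M t) = alt (M s t) (sg M t) (sg M s) := by
  have := PresentedGroup.mk_eq_mk_of_mul_inv_mem (rels := rels M)
    (x := alt (M s t) (FreeGroup.of s) (FreeGroup.of t))
    (y := alt (M s t) (FreeGroup.of t) (FreeGroup.of s)) ⟨s, t, h, rfl⟩
  rw [map_alt, map_alt] at this
  exact this

/-- parabolic subgroup -/
def cl (M : CoxeterMatrix S) (X : Set S) : Subgroup (Art M) := Subgroup.closure (sg M '' X)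

lemma sg_mem_cl {X : Set S} {s : S} (h : s ∈ X) : sg M s ∈ cl M X :=
  Subgroup.subset_closure ⟨s, h, rfl⟩

lemma cl_mono {X Y : Set S} (h : X ⊆ Y) : cl M X ≤ cl M Y :=
  Subgroup.closure_mono (Set.image_mono h)

lemma cl_empty {g : Art M} (h : g ∈ cl M (∅ : Set S)) : g = 1 := by
  simpa [cl] using h

lemma cl_univ : cl M (Set.univ : Set S) = ⊤ := by
  rw [cl, Set.image_univ]
  exact PresentedGroup.closure_range_of _

section rep
variable {L : Type*} [CommRing L] (P : Par M L)
variable {R : Type*} [Ring R] [Algebra L R] (b : S → S → R)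

/-- the representation in the circle monoid -/
def rho : Art M →* (Circ (gram P b))ˣ :=
  PresentedGroup.toGroup (f := gen P b) (by
    rintro r ⟨i, j, h, rfl⟩
    rw [map_mul, map_inv, map_alt, map_alt, FreeGroup.lift_apply_of, FreeGroup.lift_apply_of,
      gen_braid P b h, mul_inv_cancel])

/-- the matrix of a group element -/
def Cm (g : Art M) : Matrix S S R := ((rho P b g : (Circ (gram P b))ˣ) : Circ (gram P b)).val

lemma Cm_one : Cm P b 1 = 0 := by simp [Cm]

lemma Cm_mul (g h : Art M) :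
    Cm P b (g * h) = Cm P b g + Cm P b h + Cm P b g * gram P b * Cm P b h := by simp [Cm]

lemma Cm_sg (s : S) : Cm P b (sg M s) = single s s 1 := by
  have : rho P b (sg M s) = gen P b s := PresentedGroup.toGroup.of _
  rw [Cm, this]; rfl

lemma Cm_sg_inv (s : S) : Cm P b (sg M s)⁻¹ = single s s (algebraMap L R (P.w ^ 2)) := by
  have : rho P b (sg M s) = gen P b s := PresentedGroup.toGroup.of _
  rw [Cm, map_inv, this]; rfl

lemma Cm_inv_right (g : Art M) :
    Cm P b g + Cm P b g⁻¹ + Cm P b g * gram P b * Cm P b g⁻¹ = 0 := by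
  rw [← Cm_mul, mul_inv_cancel, Cm_one]

lemma Cm_inv_left (g : Art M) :
    Cm P b g⁻¹ + Cm P b g + Cm P b g⁻¹ * gram P b * Cm P b g = 0 := by
  rw [← Cm_mul, inv_mul_cancel, Cm_one]

/-- uniqueness of the inverse -/
lemma Cm_inv_unique {g : Art M} {y : Matrix S S R}
    (h : y + Cm P b g + y * gram P b * Cm P b g = 0) : y = Cm P b g⁻¹ := by
  have h1 : (⟨y⟩ : Circ (gram P b)) * ⟨Cm P b g⟩ = 1 := by ext1; simpa using h
  have h2 : (⟨Cm P b g⟩ : Circ (gram P b)) * ⟨Cm P b g⁻¹⟩ = 1 := by
    ext1; simpa using Cm_inv_right P b g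
  have h3 : (⟨y⟩ : Circ (gram P b)) = ⟨Cm P b g⁻¹⟩ := by
    calc (⟨y⟩ : Circ (gram P b)) = ⟨y⟩ * (⟨Cm P b g⟩ * ⟨Cm P b g⁻¹⟩) := by rw [h2, mul_one]
      _ = ⟨Cm P b g⁻¹⟩ := by rw [← mul_assoc, h1, one_mul]
  exact congrArg Circ.val h3

/-- naturality -/
lemma Cm_nat {L' : Type*} [CommRing L'] (P' : Par M L') {R' : Type*} [Ring R'] [Algebra L' R']
    (b' : S → S → R') (f : R →+* R') (hG : ∀ s t, f (gram P b s t) = gram P' b' s t)
    (g : Art M) :
    Cm P' b' g = (Cm P b g).map f := by
  have hG' : (gram P b).map f = gram P' b' := by ext s t; exact hG s t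
  have key : g ∈ (⊤ : Subgroup (Art M)) := trivial
  rw [← cl_univ, cl] at key
  induction key using Subgroup.closure_induction with
  | mem x hx =>
    obtain ⟨s, -, rfl⟩ := hx
    rw [Cm_sg, Cm_sg, map_single _ _ _ f, map_one]
  | one => rw [Cm_one, Cm_one, Matrix.map_zero _ (map_zero f)]
  | mul x y _ _ hx hy =>
    rw [Cm_mul, Cm_mul, hx, hy, ← hG', Matrix.map_add _ (map_add f), Matrix.map_add _ (map_add f),
      Matrix.map_mul, Matrix.map_mul]
  | inv x _ hx =>
    symm
    apply Cm_inv_unique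
    rw [hx, ← hG', ← Matrix.map_mul, ← Matrix.map_mul, ← Matrix.map_add _ (map_add f),
      ← Matrix.map_add _ (map_add f), Cm_inv_left, Matrix.map_zero _ (map_zero f)]

/-- support of a matrix -/
def SuppIn (X : Set S) {R : Type*} [Zero R] (A : Matrix S S R) : Prop :=
  ∀ s t, ¬ (s ∈ X ∧ t ∈ X) → A s t = 0

lemma supp_Cm {X : Set S} {g : Art M} (hg : g ∈ cl M X) : SuppIn X (Cm P b g) := by
  induction hg using Subgroup.closure_induction with
  | mem x hx =>
    obtain ⟨s, hs, rfl⟩ := hx
    rw [Cm_sg]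
    intro a c h
    rw [single_apply, if_neg]
    rintro ⟨rfl, rfl⟩
    exact h ⟨hs, hs⟩
  | one => intro a c _; rw [Cm_one]; rfl
  | mul x y _ _ hx hy =>
    intro a c h
    rw [Cm_mul, Matrix.add_apply, Matrix.add_apply, hx a c h, hy a c h, zero_add, zero_add]
    by_cases ha : a ∈ X
    · have hc : c ∉ X := fun hc => h ⟨ha, hc⟩
      rw [Matrix.mul_apply]
      exact Finset.sum_eq_zero (fun k _ => by rw [hy k c (fun h' => hc h'.2), mul_zero])
    · rw [Matrix.mul_assoc, Matrix.mul_apply]
      exact Finset.sum_eq_zero (fun k _ => by rw [hx a k (fun h' => ha h'.1), zero_mul])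
  | inv x _ hx =>
    intro a c h
    by_cases ha : a ∈ X
    · have hc : c ∉ X := fun hc => h ⟨ha, hc⟩
      have e := congrFun (congrFun (Cm_inv_left P b x) a) c
      rw [Matrix.add_apply, Matrix.add_apply, hx a c h, add_zero, Matrix.mul_apply,
        Finset.sum_eq_zero (fun k _ => by rw [hx k c (fun h' => hc h'.2), mul_zero]),
        add_zero] at e
      exact e
    · have e := congrFun (congrFun (Cm_inv_right P b x) a) c
      rw [Matrix.add_apply, Matrix.add_apply, hx a c h, zero_add, Matrix.mul_assoc,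
        Matrix.mul_apply,
        Finset.sum_eq_zero (fun k _ => by rw [hx a k (fun h' => ha h'.1), zero_mul]),
        add_zero] at e
      exact e

/-- no pair of `X` has label infinity -/
def InfFree (M : CoxeterMatrix S) (X : Set S) : Prop := ∀ s ∈ X, ∀ t ∈ X, M s t ≠ 0

/-- the specialised matrix, with `b = 0` -/
abbrev C0 (g : Art M) : Matrix S S L := Cm P (0 : S → S → L) g

/-- the specialised Gram matrix -/
abbrev G0 : Matrix S S L := gram P (0 : S → S → L)

lemma gram_eq {s t : S} (h : M s t ≠ 0) : gram P b s t = algebraMap L R (G0 P s t) := by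
  by_cases hst : s = t
  · subst hst; simp [G0, gram]
  · simp [G0, gram, hst, h]

lemma fin_mul {X : Set S} (hX : InfFree M X) {x y : Matrix S S L}
    (hx : SuppIn X x) (hy : SuppIn X y) :
    x.map (algebraMap L R) * gram P b * y.map (algebraMap L R) =
      (x * G0 P * y).map (algebraMap L R) := by
  ext s t
  rw [Matrix.map_apply, Matrix.mul_apply, Matrix.mul_apply, map_sum]
  apply Finset.sum_congr rfl
  intro k _
  rw [map_mul, Matrix.map_apply]
  by_cases hk : k ∈ X
  · congr 1
    rw [Matrix.mul_apply, Matrix.mul_apply, map_sum]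
    apply Finset.sum_congr rfl
    intro l _
    by_cases hl : l ∈ X
    · rw [Matrix.map_apply, map_mul, gram_eq P b (hX l hl k hk)]
    · rw [Matrix.map_apply, hx s l (fun h => hl h.2), map_zero, zero_mul, zero_mul, map_zero]
  · rw [hy k t (fun h => hk h.1), map_zero, mul_zero, mul_zero]

lemma Cm_fin {X : Set S} (hX : InfFree M X) {g : Art M} (hg : g ∈ cl M X) :
    Cm P b g = (C0 P g).map (algebraMap L R) := by
  have hg' := hg
  induction hg using Subgroup.closure_induction with
  | mem x hx =>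
    obtain ⟨s, hs, rfl⟩ := hx
    rw [Cm_sg, C0, Cm_sg, map_single _ _ _ (algebraMap L R), map_one]
  | one => rw [C0, Cm_one, Cm_one, Matrix.map_zero _ (map_zero _)]
  | mul x y hx hy ihx ihy =>
    rw [Cm_mul, ihx hx, ihy hy, fin_mul P b hX (supp_Cm P _ hx) (supp_Cm P _ hy),
      ← Matrix.map_add _ (map_add _), ← Matrix.map_add _ (map_add _), C0, C0, C0, Cm_mul]
  | inv x hx ihx =>
    symm
    apply Cm_inv_unique
    rw [ihx hx, fin_mul P b hX (supp_Cm P _ ((cl M X).inv_mem hx)) (supp_Cm P _ hx),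
      ← Matrix.map_add _ (map_add _), ← Matrix.map_add _ (map_add _), C0, C0,
      Cm_inv_left P (0 : S → S → L) x, Matrix.map_zero _ (map_zero _)]

end rep

end Pool.Agent.TH107.RF
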