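import Pool.Agent.H13.L.S8.TH107.RF.HasP

set_option autoImplicit false

namespace Pool.Agent.TH107.RF

open Matrix LaurentPolynomial

/-! ### finitely generated commutative rings -/

theorem jac_int : IsJacobsonRing ℤ := by
  rw [isJacobsonRing_iff_prime_eq]
  intro P hP
  by_cases h : P = ⊥
  · subst h
    rw [eq_bot_iff]
    intro x hx
    rw [Ideal.mem_jacobson_bot] at hx
    have h1 := hx x
    rw [Int.isUnit_iff] at h1
    rw [Ideal.mem_bot]
    rcases h1 with h1 | h1
    · have : x * x = 0 := by linarith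
      exact mul_self_eq_zero.1 this
    · exfalso
      nlinarith [mul_self_nonneg x]
  · have : P.IsMaximal := IsPrime.to_maximal_ideal h
    exact Ideal.jacobson_eq_self_of_isMaximal

/-- residue fields of finitely generated commutative rings are finite -/
theorem residue_finite (S : Type*) [CommRing S] [alg : Algebra ℤ S] [Algebra.FiniteType ℤ S]
    (m : Ideal S) [hm : m.IsMaximal] : Finite (S ⧸ m) := by
  obtain rfl : alg = Ring.toIntAlgebra S := Subsingleton.elim _ _
  let F : Field (S ⧸ m) := Ideal.Quotient.field m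
  have h0 : Algebra.FiniteType ℤ (S ⧸ m) :=
    Algebra.FiniteType.of_surjective ((Ideal.Quotient.mkₐ S m).restrictScalars ℤ)
      Ideal.Quotient.mk_surjective
  have hJ : IsJacobsonRing ℤ := jac_int
  have h1 : Module.Finite ℤ (S ⧸ m) := finite_of_finite_type_of_isJacobsonRing ℤ (S ⧸ m)
  obtain ⟨p, hp⟩ := CharP.exists (S ⧸ m)
  rcases Nat.eq_zero_or_pos p with h2 | h2
  · exfalso
    subst h2
    have hc : CharZero (S ⧸ m) := CharP.charP_to_charZero (S ⧸ m)
    have h3 : Function.Injective (algebraMap ℤ (S ⧸ m)) := by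
      have : (algebraMap ℤ (S ⧸ m)) = Int.castRingHom (S ⧸ m) := RingHom.ext_int _ _
      rw [this]
      exact RingHom.injective_int _
    have hi : Algebra.IsIntegral ℤ (S ⧸ m) := Algebra.IsIntegral.of_finite ℤ (S ⧸ m)
    have h4 : IsField ℤ := isField_of_isIntegral_of_isField h3 (Field.toIsField _)
    exact Int.not_isField h4
  · apply Module.finite_of_fg_torsion (S ⧸ m)
    intro x
    refine ⟨⟨(p : ℤ), ?_⟩, ?_⟩
    · rw [mem_nonZeroDivisors_iff_ne_zero]
      exact_mod_cast h2.ne'
    · change (p : ℤ) • x = 0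
      rw [zsmul_eq_mul]
      simp

section
variable {S : Type*} [Fintype S] [DecidableEq S] (M : CoxeterMatrix S)

/-- generators of the base ring -/
noncomputable def gens : Set ℝ[T;T⁻¹] :=
  {T 1, T (-1)} ∪ Set.range (fun p : S × S => C (lamR M p.1 p.2))

/-- the base ring -/
noncomputable def AA : Subalgebra ℤ ℝ[T;T⁻¹] := Algebra.adjoin ℤ (gens M)

lemma gens_finite : (gens M).Finite := by
  unfold gens
  exact ((Set.finite_singleton _).insert _).union (Set.finite_range _)

instance : Algebra.FiniteType ℤ (AA M) := by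
  rw [← Subalgebra.fg_iff_finiteType]
  exact Subalgebra.fg_def.2 ⟨gens M, gens_finite M, rfl⟩

instance : IsNoetherianRing (AA M) := Algebra.FiniteType.isNoetherianRing ℤ _

lemma T_mem : (T 1 : ℝ[T;T⁻¹]) ∈ AA M := Algebra.subset_adjoin (Or.inl (by simp))
lemma T_mem' : (T (-1) : ℝ[T;T⁻¹]) ∈ AA M := Algebra.subset_adjoin (Or.inl (by simp))
lemma lam_mem (s t : S) : C (lamR M s t) ∈ AA M := Algebra.subset_adjoin (Or.inr ⟨(s, t), rfl⟩)

/-- the parameters over the base ring -/
noncomputable def PA : Par M (AA M) where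
  v := ⟨T 1, T_mem M⟩
  w := ⟨T (-1), T_mem' M⟩
  vw := Subtype.ext (PR M).vw
  lam s t := ⟨C (lamR M s t), lam_mem M s t⟩
  symm s t := Subtype.ext ((PR M).symm s t)
  cheb s t hst h0 := by
    apply Subtype.ext
    have := map_chb (AA M).val.toRingHom (⟨C (lamR M s t), lam_mem M s t⟩ : AA M) (M s t)
    change (AA M).val.toRingHom _ = 0
    rw [this]
    exact (PR M).cheb s t hst h0

/-- primes are not units in the base ring -/
lemma prime_not_unit (p : ℕ) (hp : p.Prime) : ¬ IsUnit ((p : ℕ) : AA M) := by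
  let ev : ℝ[T;T⁻¹] →+* ℝ := eval₂ (RingHom.id ℝ) 1
  have hev : ∀ a ∈ AA M, IsIntegral ℤ (ev a) := by
    intro a ha
    induction ha using Algebra.adjoin_induction with
    | mem x hx =>
      rcases hx with (hx | hx) | ⟨⟨s, t⟩, hx⟩
      · rw [hx]; simp only [ev, eval₂_T]; simpa using isIntegral_one
      · rw [Set.mem_singleton_iff.1 hx]; simp only [ev, eval₂_T]; simpa using isIntegral_one
      · rw [← hx]
        simp only [ev, eval₂_C, lamR, RingHom.id_apply]
        have := Real.isIntegral_two_mul_cos_rat_mul_pi (1 / ((M s t : ℕ) : ℚ))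
        have e : ((1 / ((M s t : ℕ) : ℚ) : ℚ) : ℝ) * Real.pi = Real.pi / ((M s t : ℕ) : ℝ) := by
          push_cast; ring
        rw [e] at this
        exact this
    | algebraMap r =>
      have : ev (algebraMap ℤ ℝ[T;T⁻¹] r) = algebraMap ℤ ℝ r := by simp
      rw [this]; exact isIntegral_algebraMap
    | add x y _ _ hx hy => rw [map_add]; exact hx.add hy
    | mul x y _ _ hx hy => rw [map_mul]; exact hx.mul hy
  intro hu
  obtain ⟨u, hu⟩ := hu
  have h1 : ((p : ℕ) : AA M) * (↑u⁻¹ : AA M) = 1 := by rw [← hu, Units.mul_inv]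
  have h2 : ((p : ℕ) : ℝ) * ev (↑u⁻¹ : AA M) = 1 := by
    have := congrArg (fun a : AA M => ev (a : ℝ[T;T⁻¹])) h1
    simpa using this
  have h3 := hev _ (↑u⁻¹ : AA M).2
  have hp0 : ((p : ℕ) : ℝ) ≠ 0 := by exact_mod_cast hp.ne_zero
  have h4 : ev (↑u⁻¹ : AA M) = algebraMap ℚ ℝ (1 / (p : ℚ)) := by
    have : ev (↑u⁻¹ : AA M) = 1 / (p : ℝ) := by field_simp; linarith
    rw [this]; simp
  rw [h4] at h3
  have h5 : IsIntegral ℤ (1 / (p : ℚ)) :=
    (isIntegral_algebraMap_iff (algebraMap ℚ ℝ).injective).1 h3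
  obtain ⟨z, hz⟩ := IsIntegrallyClosed.isIntegral_iff.1 h5
  have hpq : ((p : ℕ) : ℚ) ≠ 0 := by exact_mod_cast hp.ne_zero
  have h6 : (p : ℚ) * (z : ℚ) = 1 := by
    have : (algebraMap ℤ ℚ z) = (z : ℚ) := rfl
    rw [this] at hz
    rw [hz]; field_simp
  have h7 : (p : ℤ) * z = 1 := by exact_mod_cast h6
  have h8 : IsUnit (p : ℤ) := IsUnit.of_mul_eq_one z h7
  rw [Int.isUnit_iff] at h8
  have := hp.two_le
  omega

/-- faithfulness over the base ring -/
theorem faithful_base (hR : RankTwo M) {g : Art M} (hg : g ≠ 1) :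
    ∃ (x s : S) (w : FreeMonoid (S × S)), (CG (PA M) g x s).coeff w ≠ 0 := by
  obtain ⟨x, s, w, h⟩ := faithful (PR M) (hasP hR) hg
  refine ⟨x, s, w, fun h0 => h ?_⟩
  have e : CG (PR M) g = (CG (PA M) g).map
      (MonoidAlgebra.mapRingHom (FreeMonoid (S × S)) (AA M).val.toRingHom) := by
    apply Cm_nat
    intro a b
    by_cases hab : a = b
    · subst hab
      rw [gram_self, gram_self]
      simp only [MonoidAlgebra.coe_algebraMap, Function.comp_apply,
        MonoidAlgebra.mapRingHom_single, Algebra.algebraMap_self, RingHom.id_apply]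
      rfl
    · by_cases h0 : M a b = 0
      · rw [gram_inf _ _ hab h0, gram_inf _ _ hab h0, bf, bf, MonoidAlgebra.mapRingHom_single,
          map_one]
      · rw [gram_fin _ _ hab h0, gram_fin _ _ hab h0]
        simp only [MonoidAlgebra.coe_algebraMap, Function.comp_apply,
          MonoidAlgebra.mapRingHom_single, Algebra.algebraMap_self, RingHom.id_apply]
        rfl
  rw [e, Matrix.map_apply, MonoidAlgebra.coeff_mapRingHom, h0, map_zero]

end

end Pool.Agent.TH107.RF
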