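import Mathlib

set_option autoImplicit false

namespace Pool.Agent.TH107.RF

open Matrix

variable {S : Type*} [Fintype S] [DecidableEq S]

/-- The circle monoid of a Gram matrix `G`: matrices under `x + y + x G y`. -/
@[ext] structure Circ {R : Type*} [Ring R] (G : Matrix S S R) where
  /-- the underlying matrix -/
  val : Matrix S S R

namespace Circ
variable {R : Type*} [Ring R] {G : Matrix S S R}

instance : Mul (Circ G) := ⟨fun x y => ⟨x.val + y.val + x.val * G * y.val⟩⟩
instance : One (Circ G) := ⟨⟨0⟩⟩

@[simp] lemma val_mul (x y : Circ G) : (x * y).val = x.val + y.val + x.val * G * y.val := rfl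
@[simp] lemma val_one : (1 : Circ G).val = 0 := rfl

instance : Monoid (Circ G) where
  mul_assoc x y z := by
    ext1
    simp only [val_mul, Matrix.mul_add, Matrix.add_mul, Matrix.mul_assoc]
    abel
  one_mul x := by ext1; simp
  mul_one x := by ext1; simp

end Circ

/-- alternating product `a b a ...` of length `k` -/
def alt {H : Type*} [Monoid H] : ℕ → H → H → H
  | 0, _, _ => 1
  | k + 1, a, b => a * alt k b a

@[simp] lemma alt_zero {H : Type*} [Monoid H] (a b : H) : alt 0 a b = 1 := rfl
lemma alt_succ {H : Type*} [Monoid H] (k : ℕ) (a b : H) : alt (k + 1) a b = a * alt k b a := rfl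

lemma map_alt {H K : Type*} [Monoid H] [Monoid K] (f : H →* K) (k : ℕ) (a b : H) :
    f (alt k a b) = alt k (f a) (f b) := by
  induction k generalizing a b with
  | zero => simp
  | succ k ih => simp [alt_succ, ih]

/-- Chebyshev-type sequence -/
def chb {L : Type*} [CommRing L] (x : L) : ℕ → L
  | 0 => 0
  | 1 => 1
  | (k + 2) => x * chb x (k + 1) - chb x k

lemma map_chb {L L' : Type*} [CommRing L] [CommRing L'] (f : L →+* L') (x : L) (k : ℕ) :
    f (chb x k) = chb (f x) k := by
  induction k using Nat.strong_induction_on with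
  | _ k ih =>
    match k with
    | 0 => simp [chb]
    | 1 => simp [chb]
    | (k + 2) => simp [chb, ih (k + 1) (by omega), ih k (by omega)]

/-- Parameters of the generalised Burau representation. -/
structure Par (M : CoxeterMatrix S) (L : Type*) [CommRing L] where
  /-- square root of q -/
  v : L
  /-- inverse of `v` -/
  w : L
  vw : v * w = 1
  /-- `2 cos (pi / m)` -/
  lam : S → S → L
  symm : ∀ s t, lam s t = lam t s
  cheb : ∀ s t, s ≠ t → M s t ≠ 0 → chb (lam s t) (M s t) = 0

section rep
variable {M : CoxeterMatrix S} {L : Type*} [CommRing L] (P : Par M L)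
variable {R : Type*} [Ring R] [Algebra L R]

/-- the Gram matrix; `b s t` is the entry at a pair with label infinity -/
def gram (b : S → S → R) : Matrix S S R := fun s t =>
  if s = t then algebraMap L R (-(1 + P.v ^ 2)) else
    if M s t = 0 then b s t else algebraMap L R (P.v * P.lam s t)

lemma gram_self (b : S → S → R) (s : S) : gram P b s s = algebraMap L R (-(1 + P.v ^ 2)) := by
  simp [gram]

lemma gram_inf (b : S → S → R) {s t : S} (hst : s ≠ t) (h : M s t = 0) :
    gram P b s t = b s t := by simp [gram, hst, h]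

lemma gram_fin (b : S → S → R) {s t : S} (hst : s ≠ t) (h : M s t ≠ 0) :
    gram P b s t = algebraMap L R (P.v * P.lam s t) := by simp [gram, hst, h]

/-- the generators -/
def gen (b : S → S → R) (s : S) : (Circ (gram P b))ˣ where
  val := ⟨single s s 1⟩
  inv := ⟨single s s (algebraMap L R (P.w ^ 2))⟩
  val_inv := by
    ext1
    simp only [Circ.val_mul, Circ.val_one, single_mul_mul_single, gram_self]
    rw [one_mul, ← map_mul, ← single_add, ← single_add, ← map_one (algebraMap L R), ← map_add,
      ← map_add]
    have : (1 + P.w ^ 2 + -(1 + P.v ^ 2) * P.w ^ 2 : L) = 0 := by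
      have h := P.vw
      have : P.v ^ 2 * P.w ^ 2 = 1 := by rw [← mul_pow, h, one_pow]
      linear_combination -this
    rw [this]; simp
  inv_val := by
    ext1
    simp only [Circ.val_mul, Circ.val_one, single_mul_mul_single, gram_self]
    rw [mul_one, ← map_mul, ← single_add, ← single_add, ← map_one (algebraMap L R), ← map_add,
      ← map_add]
    have : (P.w ^ 2 + 1 + P.w ^ 2 * -(1 + P.v ^ 2) : L) = 0 := by
      have h := P.vw
      have : P.v ^ 2 * P.w ^ 2 = 1 := by rw [← mul_pow, h, one_pow]
      linear_combination -this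
    rw [this]; simp

/-- the closed form sequences -/
def F (v lam : L) : ℕ → L × L × L × L
  | 0 => (0, 0, 0, 0)
  | k + 1 => (1 - v ^ 2 * (F v lam k).2.2.2 + v * lam * (F v lam k).2.1,
      - v ^ 2 * (F v lam k).2.2.1 + v * lam * (F v lam k).1, (F v lam k).2.1, (F v lam k).1)

/-- a combination of the four matrix units of a pair -/
def cm (R : Type*) [Ring R] [Algebra L R] (s t : S) (x : L × L × L × L) : Matrix S S R :=
  single s s (algebraMap L R x.1) + single s t (algebraMap L R x.2.1) +
    single t s (algebraMap L R x.2.2.1) + single t t (algebraMap L R x.2.2.2)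

lemma alt_closed (b : S → S → R) (k : ℕ) : ∀ {s t : S}, s ≠ t → M s t ≠ 0 →
    ((alt k (gen P b s) (gen P b t) : (Circ (gram P b))ˣ) : Circ (gram P b)).val =
      cm R s t (F P.v (P.lam s t) k) := by
  induction k with
  | zero => intro s t _ _; simp [cm, F]
  | succ k ih =>
    intro s t hst h0
    have h0' : M t s ≠ 0 := by rwa [M.symmetric]
    rw [alt_succ, Units.val_mul, Circ.val_mul, ih (Ne.symm hst) h0', P.symm t s]
    change single s s 1 + _ + single s s 1 * _ * _ = _
    rw [← map_one (algebraMap L R)]
    simp only [cm, F, Matrix.mul_add, single_mul_mul_single, gram_self, gram_fin P b hst h0]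
    simp only [← map_mul]
    have e1 : single s s (algebraMap L R (1 - P.v ^ 2 * (F P.v (P.lam s t) k).2.2.2 +
        P.v * P.lam s t * (F P.v (P.lam s t) k).2.1)) =
        single s s (algebraMap L R 1) + single s s (algebraMap L R (F P.v (P.lam s t) k).2.2.2) +
        single s s (algebraMap L R (1 * (P.v * P.lam s t) * (F P.v (P.lam s t) k).2.1)) +
        single s s (algebraMap L R (1 * -(1 + P.v ^ 2) * (F P.v (P.lam s t) k).2.2.2)) := by
      rw [← single_add, ← single_add, ← single_add, ← map_add, ← map_add, ← map_add]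
      congr 2; ring
    have e2 : single s t (algebraMap L R (- P.v ^ 2 * (F P.v (P.lam s t) k).2.2.1 +
        P.v * P.lam s t * (F P.v (P.lam s t) k).1)) =
        single s t (algebraMap L R (F P.v (P.lam s t) k).2.2.1) +
        single s t (algebraMap L R (1 * (P.v * P.lam s t) * (F P.v (P.lam s t) k).1)) +
        single s t (algebraMap L R (1 * -(1 + P.v ^ 2) * (F P.v (P.lam s t) k).2.2.1)) := by
      rw [← single_add, ← single_add, ← map_add, ← map_add]
      congr 2; ring
    rw [e1, e2]
    abel

lemma F_step (v lam : L) (k : ℕ) :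
    (Even k → (F v lam (k + 1)).1 - (F v lam k).1 = v ^ k * chb lam (k + 1) ∧
      (F v lam (k + 1)).2.1 - (F v lam k).2.1 = 0) ∧
    (Odd k → (F v lam (k + 1)).1 - (F v lam k).1 = 0 ∧
      (F v lam (k + 1)).2.1 - (F v lam k).2.1 = v ^ k * chb lam (k + 1)) := by
  induction k using Nat.strong_induction_on with
  | _ k ih =>
    match k with
    | 0 => simp [F, chb]
    | 1 => simp [F, chb]
    | (k + 2) =>
      obtain ⟨i0, i0'⟩ := ih k (by omega)
      obtain ⟨i1, i1'⟩ := ih (k + 1) (by omega)
      have r1 : (F v lam (k + 2 + 1)).1 - (F v lam (k + 2)).1 =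
          - v ^ 2 * ((F v lam (k + 1)).1 - (F v lam k).1) +
            v * lam * ((F v lam (k + 1 + 1)).2.1 - (F v lam (k + 1)).2.1) := by
        simp only [F]; ring
      have r2 : (F v lam (k + 2 + 1)).2.1 - (F v lam (k + 2)).2.1 =
          - v ^ 2 * ((F v lam (k + 1)).2.1 - (F v lam k).2.1) +
            v * lam * ((F v lam (k + 1 + 1)).1 - (F v lam (k + 1)).1) := by
        simp only [F]; ring
      have c : chb lam (k + 2 + 1) = lam * chb lam (k + 1 + 1) - chb lam (k + 1) := rfl
      constructor
      · intro he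
        have he0 : Even k := by
          rcases Nat.even_or_odd k with h | h
          · exact h
          · exfalso; rw [Nat.even_add_one, Nat.even_add_one, not_not] at he
            exact (Nat.not_even_iff_odd.2 h) he
        have ho1 : Odd (k + 1) := he0.add_one
        rw [r1, r2, c, (i0 he0).1, (i0 he0).2, (i1' ho1).1, (i1' ho1).2]
        constructor <;> ring
      · intro ho
        have ho0 : Odd k := by
          rcases Nat.even_or_odd k with h | h
          · exfalso
            have : Even (k + 2) := by
              rw [Nat.even_add_one, Nat.even_add_one, not_not]; exact h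
            exact (Nat.not_even_iff_odd.2 ho) this
          · exact h
        have he1 : Even (k + 1) := ho0.add_one
        rw [r1, r2, c, (i0' ho0).1, (i0' ho0).2, (i1 he1).1, (i1 he1).2]
        constructor <;> ring

lemma F_eq (v lam : L) (m : ℕ) (hm : m ≠ 0) (h : chb lam m = 0) :
    (F v lam m).1 = (F v lam m).2.2.2 ∧ (F v lam m).2.1 = (F v lam m).2.2.1 := by
  obtain ⟨k, rfl⟩ := Nat.exists_eq_succ_of_ne_zero hm
  have h3 : (F v lam (k + 1)).2.2.2 = (F v lam k).1 := rfl
  have h4 : (F v lam (k + 1)).2.2.1 = (F v lam k).2.1 := rfl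
  obtain ⟨h1, h2⟩ := F_step v lam k
  simp only [Nat.succ_eq_add_one] at h ⊢
  rw [h3, h4]
  rcases Nat.even_or_odd k with hk | hk
  · obtain ⟨a, b⟩ := h1 hk
    rw [h, mul_zero] at a
    exact ⟨sub_eq_zero.1 a, sub_eq_zero.1 b⟩
  · obtain ⟨a, b⟩ := h2 hk
    rw [h, mul_zero] at b
    exact ⟨sub_eq_zero.1 a, sub_eq_zero.1 b⟩

/-- the braid relations hold -/
lemma gen_braid (b : S → S → R) {s t : S} (h0 : M s t ≠ 0) :
    alt (M s t) (gen P b s) (gen P b t) = alt (M s t) (gen P b t) (gen P b s) := by
  by_cases hst : s = t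
  · rw [hst]
  have h0' : M t s ≠ 0 := by rwa [M.symmetric]
  apply Units.ext
  ext1
  rw [alt_closed P b _ hst h0, alt_closed P b _ (Ne.symm hst) h0', P.symm t s]
  obtain ⟨h1, h2⟩ := F_eq P.v (P.lam s t) (M s t) h0 (P.cheb s t hst h0)
  simp only [cm, h1, h2]
  abel

end rep

end Pool.Agent.TH107.RF
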