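import Pool.Agent.H13.L.S8.TH107.RF.Res

set_option autoImplicit false

namespace Pool.Agent.TH107.RF

open Matrix

/-- a multiplicative filtration of a ring by additive subgroups -/
structure RFilt (R : Type*) [Ring R] where
  /-- the members -/
  J : ℕ → AddSubgroup R
  zero : J 0 = ⊤
  anti : ∀ i, J (i + 1) ≤ J i
  mul : ∀ i j x y, x ∈ J i → y ∈ J j → x * y ∈ J (i + j)
  pure : ∀ i (n : ℕ) x, n ≠ 0 → n • x ∈ J i → x ∈ J i

namespace RFilt
variable {R : Type*} [Ring R] (F : RFilt R)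

lemma mono {i j : ℕ} (h : i ≤ j) : F.J j ≤ F.J i := antitone_nat_of_succ_le F.anti h

lemma mem_zero (x : R) : x ∈ F.J 0 := by rw [F.zero]; trivial

variable {S : Type*} [Fintype S]

/-- matrices with entries in a member of the filtration -/
def MM (i : ℕ) (X : Matrix S S R) : Prop := ∀ x s, X x s ∈ F.J i

variable {F}

omit [Fintype S] in
lemma MM.any (X : Matrix S S R) : F.MM 0 X := fun x s => F.mem_zero _

omit [Fintype S] in
lemma MM.mono {i j : ℕ} (h : i ≤ j) {X : Matrix S S R} (hX : F.MM j X) : F.MM i X :=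
  fun x s => F.mono h (hX x s)

omit [Fintype S] in
lemma MM.add {i : ℕ} {X Y : Matrix S S R} (hX : F.MM i X) (hY : F.MM i Y) : F.MM i (X + Y) :=
  fun x s => (F.J i).add_mem (hX x s) (hY x s)

omit [Fintype S] in
lemma MM.neg {i : ℕ} {X : Matrix S S R} (hX : F.MM i X) : F.MM i (-X) :=
  fun x s => (F.J i).neg_mem (hX x s)

omit [Fintype S] in
lemma MM.sub {i : ℕ} {X Y : Matrix S S R} (hX : F.MM i X) (hY : F.MM i Y) : F.MM i (X - Y) :=
  fun x s => (F.J i).sub_mem (hX x s) (hY x s)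

omit [Fintype S] in
lemma MM.zero (i : ℕ) : F.MM i (0 : Matrix S S R) := fun _ _ => (F.J i).zero_mem

omit [Fintype S] in
lemma MM.nsmul {i : ℕ} {X : Matrix S S R} (hX : F.MM i X) (n : ℕ) : F.MM i (n • X) :=
  fun x s => (F.J i).nsmul_mem (hX x s) n

omit [Fintype S] in
lemma MM.pure {i n : ℕ} (hn : n ≠ 0) {X : Matrix S S R} (hX : F.MM i (n • X)) : F.MM i X :=
  fun x s => F.pure i n _ hn (hX x s)

lemma MM.mul {i j : ℕ} {X Y : Matrix S S R} (hX : F.MM i X) (hY : F.MM j Y) :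
    F.MM (i + j) (X * Y) := by
  intro x s
  rw [Matrix.mul_apply]
  exact (F.J (i + j)).sum_mem (fun k _ => F.mul i j _ _ (hX x k) (hY k s))

lemma MM.mul3 {i j : ℕ} {X G Y : Matrix S S R} (hX : F.MM i X) (hY : F.MM j Y) :
    F.MM (i + j) (X * G * Y) := by
  have := (hX.mul (MM.any G)).mul hY
  exact this

end RFilt

section
variable {S : Type*} [Fintype S] [DecidableEq S] {M : CoxeterMatrix S}
variable {L : Type*} [CommRing L] (P : Par M L)
variable {R : Type*} [Ring R] [Algebra L R] (b : S → S → R) (F : RFilt R)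

open RFilt

/-- the member of the filtration of the group -/
def KF (i : ℕ) : Subgroup (Art M) where
  carrier := {g | F.MM i (Cm P b g)}
  one_mem' := by
    change F.MM i (Cm P b 1)
    rw [Cm_one]; exact MM.zero i
  mul_mem' := by
    intro g h hg hh
    change F.MM i (Cm P b (g * h))
    rw [Cm_mul]
    refine (MM.add hg hh).add ?_
    have h1 : F.MM (i + 0) (Cm P b g * gram P b * Cm P b h) := MM.mul3 hg (MM.any _)
    exact h1
  inv_mem' := by
    intro g hg
    change F.MM i (Cm P b g⁻¹)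
    have h1 : F.MM (i + 0) (Cm P b g * gram P b * Cm P b g⁻¹) := MM.mul3 hg (MM.any _)
    have h2 : Cm P b g⁻¹ = -(Cm P b g) - Cm P b g * gram P b * Cm P b g⁻¹ := by
      have := Cm_inv_right P b g
      rw [eq_sub_iff_add_eq, eq_neg_iff_add_eq_zero]
      rw [← this]; abel
    rw [h2]
    exact (MM.neg hg).sub h1

lemma mem_KF {i : ℕ} {g : Art M} : g ∈ KF P b F i ↔ F.MM i (Cm P b g) := Iff.rfl

lemma KF_zero : KF P b F 0 = ⊤ := by
  ext g; exact ⟨fun _ => trivial, fun _ => MM.any _⟩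

lemma KF_anti {i j : ℕ} (h : i ≤ j) : KF P b F j ≤ KF P b F i := fun _ hg => MM.mono h hg

/-- commutator estimate -/
lemma KF_comm {i j : ℕ} {g h : Art M} (hg : g ∈ KF P b F i) (hh : h ∈ KF P b F j) :
    g * h * g⁻¹ * h⁻¹ ∈ KF P b F (i + j) := by
  set c := g * h * g⁻¹ * h⁻¹ with hc
  set G := gram P b with hG
  have e1 : g * h = c * (h * g) := by rw [hc]; group
  have e2 : Cm P b (g * h) - Cm P b (h * g) = Cm P b c + Cm P b c * G * Cm P b (h * g) := by
    rw [e1, Cm_mul P b c (h * g)]; abel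
  have e3 : Cm P b (g * h) - Cm P b (h * g) = Cm P b g * G * Cm P b h - Cm P b h * G * Cm P b g := by
    rw [Cm_mul, Cm_mul]; abel
  have e4 : F.MM (i + j) (Cm P b g * G * Cm P b h - Cm P b h * G * Cm P b g) := by
    refine (MM.mul3 hg hh).sub ?_
    rw [add_comm i j]
    exact MM.mul3 hh hg
  set u := h * g with hu
  have e5 : Cm P b c = (Cm P b g * G * Cm P b h - Cm P b h * G * Cm P b g) +
      (Cm P b g * G * Cm P b h - Cm P b h * G * Cm P b g) * G * Cm P b u⁻¹ := by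
    rw [← e3, e2]
    have e6 := Cm_inv_right P b u
    have : (Cm P b c + Cm P b c * G * Cm P b u) * G * Cm P b u⁻¹ =
        Cm P b c * G * (Cm P b u⁻¹ + Cm P b u * G * Cm P b u⁻¹) := by
      simp only [Matrix.add_mul, Matrix.mul_add, Matrix.mul_assoc]
    rw [this]
    have e7 : Cm P b u⁻¹ + Cm P b u * G * Cm P b u⁻¹ = - Cm P b u := by
      rw [eq_neg_iff_add_eq_zero, ← e6]; abel
    rw [e7, Matrix.mul_neg]; abel
  rw [mem_KF, e5]
  refine e4.add ?_
  have h1 : F.MM (i + j + 0) ((Cm P b g * G * Cm P b h - Cm P b h * G * Cm P b g) * G *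
    Cm P b u⁻¹) := MM.mul3 e4 (MM.any _)
  exact h1

instance KF_normal (i : ℕ) : (KF P b F i).Normal where
  conj_mem := by
    intro n hn g
    have h1 : n * g * n⁻¹ * g⁻¹ ∈ KF P b F (i + 0) :=
      KF_comm P b F hn (by rw [KF_zero]; trivial)
    have h2 : g * n * g⁻¹ = (n * g * n⁻¹ * g⁻¹)⁻¹ * n := by group
    rw [h2]
    exact (KF P b F i).mul_mem ((KF P b F i).inv_mem h1) hn

/-- powers -/
lemma Cm_pow_fil {i : ℕ} (hi : 1 ≤ i) {h : Art M} (hh : h ∈ KF P b F i) (n : ℕ) :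
    ∃ Y, F.MM (i + 1) Y ∧ Cm P b (h ^ n) = n • Cm P b h + Y := by
  induction n with
  | zero => exact ⟨0, MM.zero _, by rw [pow_zero, Cm_one]; simp⟩
  | succ n ih =>
    obtain ⟨Y, hY, e⟩ := ih
    refine ⟨Y + Cm P b (h ^ n) * gram P b * Cm P b h, ?_, ?_⟩
    · apply hY.add
      have h1 : F.MM i (Cm P b (h ^ n)) := (KF P b F i).pow_mem hh n
      exact (MM.mul3 h1 hh).mono (by omega)
    · rw [pow_succ, Cm_mul, succ_nsmul]
      rw [show Cm P b (h ^ n) + Cm P b h + Cm P b (h ^ n) * gram P b * Cm P b h =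
        Cm P b (h ^ n) + (Cm P b h + Cm P b (h ^ n) * gram P b * Cm P b h) by abel]
      nth_rewrite 1 [e]
      abel

/-- isolation of the members of the filtration -/
lemma KF_pure {i n : ℕ} (hn : n ≠ 0) {h : Art M} (h1 : h ∈ KF P b F 1)
    (h2 : h ^ n ∈ KF P b F i) : h ∈ KF P b F i := by
  induction i with
  | zero => rw [KF_zero]; trivial
  | succ i ih =>
    have h3 : h ∈ KF P b F i := ih (KF_anti P b F (Nat.le_succ i) h2)
    rcases Nat.eq_zero_or_pos i with h0 | h0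
    · subst h0; exact h1
    · obtain ⟨Y, hY, e⟩ := Cm_pow_fil P b F h0 h3 n
      apply MM.pure hn
      have : n • Cm P b h = Cm P b (h ^ n) - Y := by rw [e]; abel
      rw [this]
      exact MM.sub h2 hY

/-- a nontrivial homomorphism of the leading term -/
lemma exists_hom (hsep : ∀ g : Art M, (∀ i, g ∈ KF P b F i) → g = 1) (H : Subgroup (Art M))
    (hne : H ≠ ⊥) (h1 : H ≤ KF P b F 1) :
    ∃ (k : ℕ) (x s : S), 1 ≤ k ∧ (∀ g ∈ H, ∀ h ∈ H,
      (QuotientAddGroup.mk (Cm P b (g * h) x s) : R ⧸ F.J (k + 1)) =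
        QuotientAddGroup.mk (Cm P b g x s) + QuotientAddGroup.mk (Cm P b h x s)) ∧
      ∃ g ∈ H, (QuotientAddGroup.mk (Cm P b g x s) : R ⧸ F.J (k + 1)) ≠ 0 := by
  classical
  obtain ⟨g0, hg0, hg1⟩ : ∃ g0 : Art M, g0 ∈ H ∧ g0 ≠ 1 := by
    obtain ⟨a, ha⟩ := Subgroup.ne_bot_iff_exists_ne_one.1 hne
    exact ⟨a.1, a.2, fun h => ha (Subtype.ext h)⟩
  have hex : ∃ i, ¬ H ≤ KF P b F i := by
    by_contra hcon
    push Not at hcon
    exact hg1 (hsep g0 (fun i => hcon i hg0))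
  have hk := Nat.find_spec hex
  have hlt := fun {m} => @Nat.find_min _ _ hex m
  set k' := Nat.find hex with hk'
  have hk2 : 2 ≤ k' := by
    rcases Nat.lt_or_ge k' 2 with h | h
    · exfalso
      have : k' ≤ 1 := by omega
      exact hk (h1.trans (KF_anti P b F this))
    · exact h
  obtain ⟨k, hkk⟩ : ∃ k, k' = k + 1 := ⟨k' - 1, by omega⟩
  rw [hkk] at hk hlt
  have hHk : H ≤ KF P b F k := by
    by_contra hcon
    exact hlt (Nat.lt_succ_self k) hcon
  obtain ⟨g, hgH, hg⟩ := SetLike.not_le_iff_exists.1 hk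
  rw [mem_KF, MM] at hg
  push Not at hg
  obtain ⟨x, s, hxs⟩ := hg
  refine ⟨k, x, s, by omega, ?_, g, hgH, ?_⟩
  · intro g hg h hh
    rw [← QuotientAddGroup.mk_add, QuotientAddGroup.eq, Cm_mul, Matrix.add_apply, Matrix.add_apply]
    have h3 : F.MM (k + 1) (Cm P b g * gram P b * Cm P b h) :=
      (MM.mul3 (hHk hg) (hHk hh)).mono (by omega)
    have h4 := (F.J (k + 1)).neg_mem (h3 x s)
    convert h4 using 1
    abel
  · rw [Ne, QuotientAddGroup.eq_zero_iff]
    exact hxs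

end

end Pool.Agent.TH107.RF
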