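import Pool.Agent.H13.L.S8.TH107.RF.Norm
import Pool.Agent.H13.L.S8.TH107.RF.Main

set_option autoImplicit false

namespace Pool.Agent.TH107.RF

open Matrix LaurentPolynomial

variable {S : Type*} [Fintype S] [DecidableEq S] {M : CoxeterMatrix S}

lemma T2_ne : (1 + T 2 : ℝ[T;T⁻¹]) ≠ 0 := by
  intro h
  have := congrArg (fun f : ℝ[T;T⁻¹] => f.coeff 0) h
  simp only [AddMonoidAlgebra.coeff_add, Finsupp.add_apply, AddMonoidAlgebra.coeff_zero,
    Finsupp.zero_apply] at this
  rw [← T_zero, T_apply, T_apply] at this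
  norm_num at this

lemma G0_self (s : S) : G0 (PR M) s s = -(1 + T 2) := by
  rw [G0, gram_self]
  change -(1 + (T 1) ^ 2) = _
  rw [T_pow]; norm_num

lemma C0_mul (g h : Art M) : C0 (PR M) (g * h) = C0 (PR M) g + C0 (PR M) h +
        C0 (PR M) g * G0 (PR M) * C0 (PR M) h := Cm_mul _ _ _ _

lemma mem_self (s : S) : sg M s ∈ cl M ({s} : Set S) := sg_mem_cl (Set.mem_singleton s)

lemma zpow_mem_cl (s : S) (j : ℤ) : sg M s ^ j ∈ cl M ({s} : Set S) :=
  Subgroup.zpow_mem _ (mem_self s) j

lemma cl_left (s t : S) : cl M ({s} : Set S) ≤ cl M ({s, t} : Set S) :=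
  cl_mono (Set.singleton_subset_iff.2 (Set.mem_insert s _))

lemma cl_right (s t : S) : cl M ({t} : Set S) ≤ cl M ({s, t} : Set S) :=
  cl_mono (Set.singleton_subset_iff.2 (Set.mem_insert_of_mem s (Set.mem_singleton t)))

/-- the diagonal character of a singleton -/
lemma chi_mul {s : S} {g : Art M} (h : Art M) (hg : g ∈ cl M ({s} : Set S))
    (hh : ∀ k, k ≠ s → (G0 (PR M) s k) * C0 (PR M) h k s = 0) :
    1 - (1 + T 2) * C0 (PR M) (g * h) s s =
      (1 - (1 + T 2) * C0 (PR M) g s s) * (1 - (1 + T 2) * C0 (PR M) h s s) := by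
  have e : (C0 (PR M) g * G0 (PR M) * C0 (PR M) h) s s =
      C0 (PR M) g s s * (-(1 + T 2)) * C0 (PR M) h s s := by
    rw [Matrix.mul_assoc, Matrix.mul_apply, Finset.sum_eq_single s]
    · rw [Matrix.mul_apply, Finset.sum_eq_single s]
      · rw [G0_self]; ring
      · intro k _ hk; exact hh k hk
      · intro h; exact absurd (Finset.mem_univ _) h
    · intro k _ hk
      have : C0 (PR M) g s k = 0 := supp_Cm (PR M) _ hg s k (fun h => hk h.2)
      rw [this, zero_mul]
    · intro h; exact absurd (Finset.mem_univ _) h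
  rw [C0_mul, Matrix.add_apply, Matrix.add_apply, e]
  ring

lemma supp_single {s : S} {g : Art M} (hg : g ∈ cl M ({s} : Set S)) {k : S} (hk : k ≠ s) :
    C0 (PR M) g k s = 0 := supp_Cm (PR M) _ hg k s (fun h => hk h.1)

lemma C_neg_one : (C (-1 : ℝ) : ℝ[T;T⁻¹]) = -1 := by rw [map_neg, map_one]

lemma chi_zpow (s : S) (j : ℤ) :
    1 - (1 + T 2) * C0 (PR M) (sg M s ^ j) s s = C ((-1 : ℝ) ^ j) * T (2 * j) := by
  have hs : sg M s ∈ cl M ({s} : Set S) := mem_self s
  have z1 : 1 - (1 + T 2) * C0 (PR M) (sg M s) s s = -T 2 := by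
    rw [C0, Cm_sg, single_apply_same]; ring
  have zm : 1 - (1 + T 2) * C0 (PR M) (sg M s)⁻¹ s s = -T (-2) := by
    have hw : algebraMap ℝ[T;T⁻¹] ℝ[T;T⁻¹] ((PR M).w ^ 2) = T (-2) := by
      change (T (-1)) ^ 2 = _
      rw [T_pow]; norm_num
    have tt : (T (-2) : ℝ[T;T⁻¹]) * T 2 = 1 := by rw [← T_add]; simp
    rw [C0, Cm_sg_inv, single_apply_same, hw]
    linear_combination -tt
  induction j using Int.induction_on with
  | zero => simp [C0, Cm_one]
  | succ i ih =>
    rw [_root_.zpow_add_one, chi_mul _ ((cl M _).zpow_mem hs _)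
      (fun k hk => by rw [supp_single hs hk, mul_zero]), ih, z1]
    rw [zpow_add_one₀ (by norm_num), map_mul, mul_add, T_add, C_neg_one, mul_one]
    ring
  | pred i ih =>
    rw [_root_.zpow_sub_one, chi_mul _ ((cl M _).zpow_mem hs _)
      (fun k hk => by rw [supp_single ((cl M _).inv_mem hs) hk, mul_zero]), ih, zm]
    rw [zpow_sub_one₀ (by norm_num), map_mul, mul_sub, sub_eq_add_neg (2 * -(i : ℤ)), T_add]
    have : ((-1 : ℝ))⁻¹ = -1 := by norm_num
    rw [this, C_neg_one, mul_one]
    ring

lemma mem_single {s : S} {g : Art M} (hg : g ∈ cl M ({s} : Set S)) : ∃ j : ℤ, g = sg M s ^ j := by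
  rw [cl, Set.image_singleton, Subgroup.mem_closure_singleton] at hg
  obtain ⟨j, hj⟩ := hg
  exact ⟨j, hj.symm⟩

lemma single_ne {s : S} {g : Art M} (hg : g ∈ cl M ({s} : Set S)) :
    g = 1 ∨ C0 (PR M) g s s ≠ 0 := by
  obtain ⟨j, rfl⟩ := mem_single hg
  by_cases hj : j = 0
  · left; rw [hj]; simp
  · right
    intro h
    have e := chi_zpow (M := M) s j
    rw [h, mul_zero, sub_zero] at e
    have h0 : (1 : ℝ[T;T⁻¹]).coeff 0 = 1 := by rw [← T_zero, T_apply, if_pos rfl]
    rw [e, coeff_C_mul, T_apply, if_neg (by omega), mul_zero] at h0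
    exact zero_ne_one h0

lemma C0_eq_of_chi {a b : ℝ[T;T⁻¹]} (h : 1 - (1 + T 2) * a = 1 - (1 + T 2) * b) : a = b := by
  have : (1 + T 2) * a = (1 + T 2) * b := by linear_combination -h
  exact mul_left_cancel₀ T2_ne this

section pair
variable {s t : S} (hst : s ≠ t)

include hst in
/-- the column identity -/
lemma col_id {g : Art M} (hg : g ∈ cl M ({s, t} : Set S)) :
    T (-2) * invert (C0 (PR M) g s s) + C0 (PR M) g s s +
      (T (-2) * invert (C0 (PR M) g s s) * G0 (PR M) s s * C0 (PR M) g s s +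
       T (-2) * invert (C0 (PR M) g t s) * G0 (PR M) t s * C0 (PR M) g s s +
       (T (-2) * invert (C0 (PR M) g s s) * G0 (PR M) s t * C0 (PR M) g t s +
       T (-2) * invert (C0 (PR M) g t s) * G0 (PR M) t t * C0 (PR M) g t s)) = 0 := by
  have h := congrFun (congrFun (Cm_inv_left (PR M) (0 : S → S → ℝ[T;T⁻¹]) g) s) s
  have e : th (Cm (PR M) 0 g) = Cm (PR M) 0 g⁻¹ := th_C0 g
  rw [← e, Matrix.add_apply, Matrix.add_apply, Matrix.mul_apply,
    Fintype.sum_eq_add s t hst] at h
  · rw [Matrix.mul_apply, Matrix.mul_apply, Fintype.sum_eq_add s t hst,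
      Fintype.sum_eq_add s t hst] at h
    · rw [add_mul, add_mul] at h
      exact h
    · rintro k ⟨hks, hkt⟩
      have : Cm (PR M) (0 : S → S → ℝ[T;T⁻¹]) g k s = 0 := supp_Cm (PR M) _ hg k s (by
        rintro ⟨(h | h), -⟩
        · exact hks h
        · exact hkt h)
      simp only [th]
      rw [this]; simp
    · rintro k ⟨hks, hkt⟩
      have : Cm (PR M) (0 : S → S → ℝ[T;T⁻¹]) g k s = 0 := supp_Cm (PR M) _ hg k s (by
        rintro ⟨(h | h), -⟩
        · exact hks h
        · exact hkt h)
      simp only [th]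
      rw [this]; simp
  · rintro k ⟨hks, hkt⟩
    have : Cm (PR M) (0 : S → S → ℝ[T;T⁻¹]) g k s = 0 := supp_Cm (PR M) _ hg k s (by
        rintro ⟨(h | h), -⟩
        · exact hks h
        · exact hkt h)
    rw [this, mul_zero]

include hst in
lemma col_zero {g : Art M} (hg : g ∈ cl M ({s, t} : Set S)) (h : C0 (PR M) g s s = 0) :
    C0 (PR M) g t s = 0 := by
  have e := col_id hst hg
  rw [h] at e
  simp only [map_zero, mul_zero, zero_mul, zero_add, add_zero] at e
  rw [G0_self] at e
  have h1 : (T (-2) : ℝ[T;T⁻¹]) ≠ 0 := (isUnit_T (-2)).ne_zero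
  rcases mul_eq_zero.1 e with e | e
  · rcases mul_eq_zero.1 e with e | e
    · rcases mul_eq_zero.1 e with e | e
      · exact absurd e h1
      · exact (map_eq_zero_iff _ (AlgEquiv.injective _)).1 e
    · exact absurd e (neg_ne_zero.2 T2_ne)
  · exact e

include hst in
lemma col_norm {g : Art M} (hg : g ∈ cl M ({s, t} : Set S)) (h : C0 (PR M) g t s = 0) :
    ∃ j : ℤ, C0 (PR M) g s s = C0 (PR M) (sg M s ^ j) s s := by
  have e := col_id hst hg
  rw [h] at e
  simp only [map_zero, mul_zero, zero_mul, add_zero] at e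
  rw [G0_self] at e
  obtain ⟨j, hj⟩ := norm_eq e
  exact ⟨j, C0_eq_of_chi (by rw [hj, chi_zpow])⟩

lemma eq_of_C0_eq (hst : s ≠ t) (hM : M s t ≠ 0) {g h : Art M} (hg : g ∈ cl M ({s, t} : Set S))
    (hh : h ∈ cl M ({s, t} : Set S)) (e : C0 (PR M) g = C0 (PR M) h) : g = h := by
  have : C0 (PR M) (g * h⁻¹) = 0 := by
    rw [C0_mul, e]
    exact Cm_inv_right _ _ _
  have := pair_faithful' hst hM ((cl M _).mul_mem hg ((cl M _).inv_mem hh)) this
  exact mul_inv_eq_one.1 this

lemma entries_eq (hst : s ≠ t) {g h : Art M} (hg : g ∈ cl M ({s, t} : Set S))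
    (hh : h ∈ cl M ({s, t} : Set S)) (e1 : C0 (PR M) g s s = C0 (PR M) h s s)
    (e2 : C0 (PR M) g s t = C0 (PR M) h s t) (e3 : C0 (PR M) g t s = C0 (PR M) h t s)
    (e4 : C0 (PR M) g t t = C0 (PR M) h t t) : C0 (PR M) g = C0 (PR M) h := by
  ext1 a b
  by_cases hab : a ∈ ({s, t} : Set S) ∧ b ∈ ({s, t} : Set S)
  · obtain ⟨(ha | ha), (hb | hb)⟩ := hab
    · rw [ha, hb]; exact e1
    · rw [Set.mem_singleton_iff] at hb; rw [ha, hb]; exact e2
    · rw [Set.mem_singleton_iff] at ha; rw [ha, hb]; exact e3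
    · rw [Set.mem_singleton_iff] at ha hb; rw [ha, hb]; exact e4
  · have h1 : C0 (PR M) g a b = 0 := supp_Cm (PR M) _ hg a b hab
    have h2 : C0 (PR M) h a b = 0 := supp_Cm (PR M) _ hh a b hab
    rw [h1, h2]

/-- criterion (i) -/
lemma crit_one (hst : s ≠ t) (hM : M s t ≠ 0) {g : Art M} (hg : g ∈ cl M ({s, t} : Set S))
    (h : C0 (PR M) g s s = 0) : g ∈ cl M ({t} : Set S) := by
  have h1 : C0 (PR M) g t s = 0 := col_zero hst hg h
  have hgi := (cl M ({s, t} : Set S)).inv_mem hg
  have h2 : C0 (PR M) g⁻¹ s s = 0 := by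
    rw [← th_C0]; simp only [th]; rw [h]; simp
  have h3 : C0 (PR M) g⁻¹ t s = 0 := col_zero hst hgi h2
  have h4 : C0 (PR M) g s t = 0 := by
    rw [← th_C0] at h3
    simp only [th] at h3
    have h1 : (T (-2) : ℝ[T;T⁻¹]) ≠ 0 := (isUnit_T (-2)).ne_zero
    rcases mul_eq_zero.1 h3 with e | e
    · exact absurd e h1
    · exact (map_eq_zero_iff _ (AlgEquiv.injective _)).1 e
  have hg' : g ∈ cl M ({t, s} : Set S) := by rwa [Set.pair_comm]
  obtain ⟨j, hj⟩ := col_norm (Ne.symm hst) hg' h4
  have ht : sg M t ^ j ∈ cl M ({t} : Set S) := zpow_mem_cl t j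
  have ht' : sg M t ^ j ∈ cl M ({s, t} : Set S) := cl_right s t ht
  have : g = sg M t ^ j := by
    apply eq_of_C0_eq hst hM hg ht'
    have z1 : C0 (PR M) (sg M t ^ j) s s = 0 := supp_Cm (PR M) _ ht s s (fun h => hst h.1)
    have z2 : C0 (PR M) (sg M t ^ j) s t = 0 := supp_Cm (PR M) _ ht s t (fun h => hst h.1)
    have z3 : C0 (PR M) (sg M t ^ j) t s = 0 := supp_Cm (PR M) _ ht t s (fun h => hst h.2)
    exact entries_eq hst hg ht' (by rw [h, z1]) (by rw [h4, z2]) (by rw [h1, z3]) hj
  rw [this]; exact ht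

/-- criterion (ii) -/
lemma crit_two (hst : s ≠ t) (hM : M s t ≠ 0) {g : Art M} (hg : g ∈ cl M ({s, t} : Set S))
    (h : C0 (PR M) g t s = 0) :
    ∃ y ∈ cl M ({s} : Set S), ∃ r ∈ cl M ({t} : Set S), g = y * r := by
  obtain ⟨j, hj⟩ := col_norm hst hg h
  have hs : sg M s ^ (-j) ∈ cl M ({s} : Set S) := zpow_mem_cl s (-j)
  have hs' : sg M s ^ (-j) ∈ cl M ({s, t} : Set S) := cl_left s t hs
  have e0 : g = sg M s ^ j * (sg M s ^ (-j) * g) := by
    rw [← mul_assoc, ← _root_.zpow_add]; simp
  refine ⟨sg M s ^ j, zpow_mem_cl s j, sg M s ^ (-j) * g, ?_, e0⟩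
  apply crit_one hst hM ((cl M _).mul_mem hs' hg)
  have e : 1 - (1 + T 2) * C0 (PR M) (sg M s ^ (-j) * g) s s = 1 - (1 + T 2) * 0 := by
    rw [chi_mul g hs, chi_zpow, hj, chi_zpow]
    · have hc : ((-1 : ℝ) ^ (-j)) * ((-1 : ℝ) ^ j) = 1 := by
        rw [← zpow_add₀ (by norm_num)]; simp
      calc C ((-1 : ℝ) ^ (-j)) * T (2 * -j) * (C ((-1 : ℝ) ^ j) * T (2 * j))
          = C (((-1 : ℝ) ^ (-j)) * ((-1 : ℝ) ^ j)) * (T (2 * -j) * T (2 * j)) := by
            rw [map_mul]; ring
        _ = 1 - (1 + T 2) * 0 := by rw [hc, ← T_add]; simp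
    · intro k hk
      by_cases hkt : k = t
      · subst hkt; rw [h, mul_zero]
      · have : C0 (PR M) g k s = 0 := supp_Cm (PR M) _ hg k s (by
          rintro ⟨(h | h), -⟩
          · exact hk h
          · exact hkt h)
        rw [this, mul_zero]
  exact C0_eq_of_chi e

end pair

/-- the decomposition property for a subset -/
def PX (M : CoxeterMatrix S) (X : Set S) : Prop := ∀ g ∈ cl M X, ∀ E ⊆ X,
  ∃ y ∈ cl M (X \ E), ∃ r ∈ cl M {s | s ∈ X ∧ ∃ t ∈ E, C0 (PR M) g t s ≠ 0}, g = y * r

lemma PX_empty : PX M (∅ : Set S) := by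
  intro g hg E hE
  rw [cl_empty hg]
  exact ⟨1, one_mem _, 1, one_mem _, by simp⟩

lemma PX_single (s : S) : PX M ({s} : Set S) := by
  intro g hg E hE
  rcases Set.subset_singleton_iff_eq.1 hE with rfl | rfl
  · exact ⟨g, by simpa using hg, 1, one_mem _, by simp⟩
  · rcases single_ne hg with h | h
    · exact ⟨1, one_mem _, 1, one_mem _, by simp [h]⟩
    · refine ⟨1, one_mem _, g, ?_, by simp⟩
      apply cl_mono _ hg
      intro a ha
      rw [Set.mem_singleton_iff] at ha
      subst ha
      exact ⟨rfl, a, rfl, h⟩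

lemma PX_pair {s t : S} (hst : s ≠ t) (hM : M s t ≠ 0) : PX M ({s, t} : Set S) := by
  have hM' : M t s ≠ 0 := by rwa [M.symmetric]
  -- one letter
  have one : ∀ {s t : S} (hst : s ≠ t) (hM : M s t ≠ 0) (g : Art M)
      (hg : g ∈ cl M ({s, t} : Set S)),
      ∃ y ∈ cl M (({s, t} : Set S) \ {t}), ∃ r ∈ cl M
        {u | u ∈ ({s, t} : Set S) ∧ ∃ t' ∈ ({t} : Set S), C0 (PR M) g t' u ≠ 0}, g = y * r := by
    intro s t hst hM g hg
    by_cases h1 : C0 (PR M) g t t = 0
    · have hg' : g ∈ cl M ({t, s} : Set S) := by rwa [Set.pair_comm]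
      have hM' : M t s ≠ 0 := by rwa [M.symmetric]
      have := crit_one (Ne.symm hst) hM' hg' h1
      refine ⟨g, cl_mono ?_ this, 1, one_mem _, by simp⟩
      rintro a rfl
      exact ⟨by simp, hst⟩
    · by_cases h2 : C0 (PR M) g t s = 0
      · obtain ⟨y, hy, r, hr, e⟩ := crit_two hst hM hg h2
        refine ⟨y, cl_mono ?_ hy, r, cl_mono ?_ hr, e⟩
        · rintro a rfl
          exact ⟨by simp, hst⟩
        · rintro a rfl
          exact ⟨by simp, a, rfl, h1⟩
      · refine ⟨1, one_mem _, g, cl_mono ?_ hg, by simp⟩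
        rintro a (rfl | ha)
        · exact ⟨by simp, t, rfl, h2⟩
        · rw [Set.mem_singleton_iff] at ha
          subst ha
          exact ⟨by simp, a, rfl, h1⟩
  intro g hg E hE
  by_cases hs : s ∈ E
  · by_cases ht : t ∈ E
    · have hE' : E = {s, t} := by
        apply Set.Subset.antisymm hE
        rintro a (rfl | ha)
        · exact hs
        · rw [Set.mem_singleton_iff] at ha; subst ha; exact ht
      subst hE'
      by_cases h1 : C0 (PR M) g s s = 0
      · have hg1 := crit_one hst hM hg h1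
        rcases single_ne hg1 with h | h
        · exact ⟨1, one_mem _, 1, one_mem _, by simp [h]⟩
        · refine ⟨1, one_mem _, g, cl_mono ?_ hg1, by simp⟩
          rintro a rfl
          exact ⟨by simp, a, by simp, h⟩
      · by_cases h2 : C0 (PR M) g t t = 0
        · have hg' : g ∈ cl M ({t, s} : Set S) := by rwa [Set.pair_comm]
          have hg1 := crit_one (Ne.symm hst) hM' hg' h2
          refine ⟨1, one_mem _, g, cl_mono ?_ hg1, by simp⟩
          rintro a rfl
          exact ⟨by simp, a, by simp, h1⟩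
        · refine ⟨1, one_mem _, g, cl_mono ?_ hg, by simp⟩
          rintro a (rfl | ha)
          · exact ⟨by simp, a, by simp, h1⟩
          · rw [Set.mem_singleton_iff] at ha
            subst ha
            exact ⟨by simp, a, by simp, h2⟩
    · have hE' : E = {s} := by
        ext a
        rw [Set.mem_singleton_iff]
        constructor
        · intro ha
          rcases hE ha with h | h
          · exact h
          · rw [Set.mem_singleton_iff] at h; subst h; exact absurd ha ht
        · rintro rfl; exact hs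
      subst hE'
      have hg' : g ∈ cl M ({t, s} : Set S) := by rwa [Set.pair_comm]
      have := one (Ne.symm hst) hM' g hg'
      rwa [Set.pair_comm t s] at this
  · by_cases ht : t ∈ E
    · have hE' : E = {t} := by
        ext a
        rw [Set.mem_singleton_iff]
        constructor
        · intro ha
          rcases hE ha with h | h
          · subst h; exact absurd ha hs
          · exact h
        · rintro rfl; exact ht
      subst hE'
      exact one hst hM g hg
    · have hE' : E = ∅ := by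
        ext a
        simp only [Set.mem_empty_iff_false, iff_false]
        intro ha
        rcases hE ha with h | h
        · subst h; exact hs ha
        · rw [Set.mem_singleton_iff] at h; subst h; exact ht ha
      subst hE'
      exact ⟨g, by simpa using hg, 1, one_mem _, by simp⟩

lemma sg_comm {a b : S} (h : M a b = 2) : Commute (sg M a) (sg M b) := by
  have h0 : M a b ≠ 0 := by omega
  have := sg_braid h0
  rw [h] at this
  change sg M a * sg M b = sg M b * sg M a
  simpa [alt] using this

lemma cl_commute {X Y : Set S} (h : ∀ a ∈ X, ∀ b ∈ Y, M a b = 2) {x y : Art M}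
    (hx : x ∈ cl M X) (hy : y ∈ cl M Y) : Commute x y := by
  have h1 : ∀ b ∈ Y, ∀ x ∈ cl M X, Commute x (sg M b) := by
    intro b hb x hx
    induction hx using Subgroup.closure_induction with
    | mem x hx => obtain ⟨a, ha, rfl⟩ := hx; exact sg_comm (h a ha b hb)
    | one => exact Commute.one_left _
    | mul x y _ _ hx hy => exact hx.mul_left hy
    | inv x _ hx => exact hx.inv_left
  induction hy using Subgroup.closure_induction with
  | mem y hy => obtain ⟨b, hb, rfl⟩ := hy; exact h1 b hb x hx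
  | one => exact Commute.one_right _
  | mul a b _ _ ha hb => exact ha.mul_right hb
  | inv a _ ha => exact ha.inv_right

lemma cl_union {X Y : Set S} (h : ∀ a ∈ X, ∀ b ∈ Y, M a b = 2) {g : Art M}
    (hg : g ∈ cl M (X ∪ Y)) : ∃ x ∈ cl M X, ∃ y ∈ cl M Y, g = x * y := by
  induction hg using Subgroup.closure_induction with
  | mem x hx =>
    obtain ⟨a, (ha | ha), rfl⟩ := hx
    · exact ⟨_, sg_mem_cl ha, 1, one_mem _, by simp⟩
    · exact ⟨1, one_mem _, _, sg_mem_cl ha, by simp⟩
  | one => exact ⟨1, one_mem _, 1, one_mem _, by simp⟩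
  | mul g g' _ _ h1 h2 =>
    obtain ⟨x, hx, y, hy, rfl⟩ := h1
    obtain ⟨x', hx', y', hy', rfl⟩ := h2
    refine ⟨x * x', mul_mem hx hx', y * y', mul_mem hy hy', ?_⟩
    have c := cl_commute h hx' hy
    calc x * y * (x' * y') = x * (y * x') * y' := by group
      _ = x * (x' * y) * y' := by rw [c.eq]
      _ = _ := by group
  | inv g _ h1 =>
    obtain ⟨x, hx, y, hy, rfl⟩ := h1
    refine ⟨x⁻¹, inv_mem hx, y⁻¹, inv_mem hy, ?_⟩
    have c := cl_commute h hx hy
    rw [c.eq, _root_.mul_inv_rev]

lemma PX_union {X Y : Set S} (h : ∀ a ∈ X, ∀ b ∈ Y, M a b = 2) (hX : PX M X) (hY : PX M Y) :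
    PX M (X ∪ Y) := by
  have disj : ∀ a, a ∈ X → a ∉ Y := by
    intro a ha hb
    have := h a ha a hb
    simp at this
  intro g hg E hE
  obtain ⟨x, hx, y, hy, rfl⟩ := cl_union h hg
  obtain ⟨y1, hy1, r1, hr1, e1⟩ := hX x hx (E ∩ X) Set.inter_subset_right
  obtain ⟨y2, hy2, r2, hr2, e2⟩ := hY y hy (E ∩ Y) Set.inter_subset_right
  have hr1X : r1 ∈ cl M X := cl_mono (fun a ha => ha.1) hr1
  have hy2Y : y2 ∈ cl M Y := cl_mono Set.diff_subset hy2
  refine ⟨y1 * y2, ?_, r1 * r2, ?_, ?_⟩
  · refine mul_mem (cl_mono ?_ hy1) (cl_mono ?_ hy2)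
    · rintro a ⟨ha, ha'⟩
      exact ⟨Or.inl ha, fun hE' => ha' ⟨hE', ha⟩⟩
    · rintro a ⟨ha, ha'⟩
      exact ⟨Or.inr ha, fun hE' => ha' ⟨hE', ha⟩⟩
  · have rowX : ∀ u t, t ∈ X → C0 (PR M) y t u = 0 := fun u t ht =>
      supp_Cm (PR M) _ hy t u (fun h' => disj t ht h'.1)
    have colX : ∀ u t, u ∈ X → C0 (PR M) y t u = 0 := fun u t hu =>
      supp_Cm (PR M) _ hy t u (fun h' => disj u hu h'.2)
    have rowY : ∀ u t, t ∈ Y → C0 (PR M) x t u = 0 := fun u t ht =>
      supp_Cm (PR M) _ hx t u (fun h' => disj t h'.1 ht)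
    refine mul_mem (cl_mono ?_ hr1) (cl_mono ?_ hr2)
    · rintro u ⟨hu, t, ⟨htE, htX⟩, hne⟩
      refine ⟨Or.inl hu, t, htE, ?_⟩
      have : C0 (PR M) (x * y) t u = C0 (PR M) x t u := by
        rw [C0_mul, Matrix.add_apply, Matrix.add_apply, rowX u t htX, Matrix.mul_apply,
          Finset.sum_eq_zero, add_zero, add_zero]
        intro k _
        rw [colX u k hu, mul_zero]
      rwa [this]
    · rintro u ⟨hu, t, ⟨htE, htY⟩, hne⟩
      refine ⟨Or.inr hu, t, htE, ?_⟩
      have : C0 (PR M) (x * y) t u = C0 (PR M) y t u := by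
        rw [C0_mul, Matrix.add_apply, Matrix.add_apply, rowY u t htY, Matrix.mul_assoc,
          Matrix.mul_apply, Finset.sum_eq_zero, zero_add, add_zero]
        intro k _
        rw [rowY k t htY, zero_mul]
      rwa [this]
  · have c := cl_commute h hr1X hy2Y
    calc x * y = y1 * (r1 * y2) * r2 := by rw [e1, e2]; group
      _ = y1 * (y2 * r1) * r2 := by rw [c.eq]
      _ = _ := by group

/-- the class of Coxeter matrices: no connected infinity-free subset of rank three -/
def RankTwo (M : CoxeterMatrix S) : Prop :=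
  ∀ i j k : S, i ≠ k → 3 ≤ M i j → 3 ≤ M j k → M i k = 0

lemma PX_all (hR : RankTwo M) (n : ℕ) : ∀ X : Finset S, X.card = n →
    InfFree M (X : Set S) → PX M (X : Set S) := by
  classical
  induction n using Nat.strong_induction_on with
  | _ n ih =>
    intro X hX hI
    rcases X.eq_empty_or_nonempty with rfl | ⟨s, hs⟩
    · simpa using PX_empty
    · by_cases h : ∃ t ∈ X, t ≠ s ∧ M s t ≠ 2
      · obtain ⟨t, ht, hts, h2⟩ := h
        have hst0 : M s t ≠ 0 := hI s hs t ht
        have hst1 : M s t ≠ 1 := M.off_diagonal s t (Ne.symm hts)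
        have hst3 : 3 ≤ M s t := by omega
        have hts3 : 3 ≤ M t s := by rw [M.symmetric]; exact hst3
        have key : ∀ a ∈ ((X.erase s).erase t : Finset S), ∀ b ∈ ({s, t} : Set S), M a b = 2 := by
          intro a ha b hb
          rw [Finset.mem_erase, Finset.mem_erase] at ha
          obtain ⟨hat, has, haX⟩ := ha
          by_contra hne
          have hab : a ≠ b := by
            rcases hb with rfl | hb
            · exact has
            · rw [Set.mem_singleton_iff] at hb; rw [hb]; exact hat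
          have hbX : b ∈ X := by
            rcases hb with rfl | hb
            · exact hs
            · rw [Set.mem_singleton_iff] at hb; rw [hb]; exact ht
          have h0 : M a b ≠ 0 := hI a haX b hbX
          have h1 : M a b ≠ 1 := M.off_diagonal a b hab
          have h3 : 3 ≤ M a b := by omega
          rcases hb with rfl | hb
          · exact hI a haX t ht (hR a b t hat h3 hst3)
          · rw [Set.mem_singleton_iff] at hb
            subst hb
            exact hI a haX s hs (hR a b s has h3 hts3)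
        have hXe : (X : Set S) = (((X.erase s).erase t : Finset S) : Set S) ∪ {s, t} := by
          ext a
          simp only [Set.mem_union, Finset.mem_coe, Finset.mem_erase, Set.mem_insert_iff,
            Set.mem_singleton_iff]
          constructor
          · intro ha
            by_cases h1 : a = s
            · exact Or.inr (Or.inl h1)
            · by_cases h2 : a = t
              · exact Or.inr (Or.inr h2)
              · exact Or.inl ⟨h2, h1, ha⟩
          · rintro (⟨_, _, h⟩ | h | h)
            · exact h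
            · rw [h]; exact hs
            · rw [h]; exact ht
        rw [hXe]
        apply PX_union key
        · apply ih ((X.erase s).erase t).card _ _ rfl
          · intro a ha b hb
            exact hI a (Finset.mem_of_mem_erase (Finset.mem_of_mem_erase ha)) b
              (Finset.mem_of_mem_erase (Finset.mem_of_mem_erase hb))
          · have h1 := Finset.card_erase_lt_of_mem hs
            have h2 := Finset.card_erase_le (s := X.erase s) (a := t)
            omega
        · exact PX_pair (Ne.symm hts) hst0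
      · push_neg at h
        have key : ∀ a ∈ (X.erase s : Finset S), ∀ b ∈ ({s} : Set S), M a b = 2 := by
          intro a ha b hb
          rw [Set.mem_singleton_iff] at hb
          subst hb
          rw [Finset.mem_erase] at ha
          rw [M.symmetric]
          exact h a ha.2 ha.1
        have hXe : (X : Set S) = ((X.erase s : Finset S) : Set S) ∪ {s} := by
          ext a
          simp only [Set.mem_union, Finset.mem_coe, Finset.mem_erase, Set.mem_singleton_iff]
          constructor
          · intro ha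
            by_cases h1 : a = s
            · exact Or.inr h1
            · exact Or.inl ⟨h1, ha⟩
          · rintro (⟨_, h⟩ | h)
            · exact h
            · rw [h]; exact hs
        rw [hXe]
        apply PX_union key
        · apply ih (X.erase s).card _ _ rfl
          · intro a ha b hb
            exact hI a (Finset.mem_of_mem_erase ha) b (Finset.mem_of_mem_erase hb)
          · have h1 := Finset.card_erase_lt_of_mem hs
            omega
        · exact PX_single s

theorem hasP (hR : RankTwo M) : HasP (PR M) := by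
  classical
  intro X hX g hg E hE
  have := PX_all hR _ X.toFinite.toFinset rfl (by
    rw [Set.Finite.coe_toFinset]; exact hX)
  rw [Set.Finite.coe_toFinset] at this
  exact this g hg E hE

end Pool.Agent.TH107.RF
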