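import Pool.Agent.H13.L.S8.TH107.RF.Pure

set_option autoImplicit false

namespace Pool.Agent.TH107.RF

open Matrix LaurentPolynomial RFilt

/-- A group is locally indicable if every nontrivial finitely generated subgroup has a nontrivial
homomorphism to the integers. -/
def LI (G : Type*) [Group G] : Prop :=
  ∀ K : Subgroup G, K.FG → K ≠ ⊥ → ∃ φ : K →* Multiplicative ℤ, ∃ k, φ k ≠ 1

/-- images in locally indicable groups -/
lemma LI.of_hom {G H : Type*} [Group G] [Group H] (hH : LI H) {K : Subgroup G} (hK : K.FG)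
    (f : K →* H) (hf : ∃ k, f k ≠ 1) : ∃ φ : K →* Multiplicative ℤ, ∃ k, φ k ≠ 1 := by
  obtain ⟨k, hk⟩ := hf
  have h1 : f.range.FG := by
    have : Group.FG K := (Group.fg_iff_subgroup_fg K).2 hK
    exact (Group.fg_iff_subgroup_fg f.range).1 (Group.fg_of_surjective f.rangeRestrict_surjective)
  have h2 : f.range ≠ ⊥ := by
    intro h0
    apply hk
    have : f k ∈ f.range := ⟨k, rfl⟩
    rw [h0] at this
    exact Subgroup.mem_bot.1 this
  obtain ⟨φ, ⟨_, k', rfl⟩, hk'⟩ := hH _ h1 h2
  exact ⟨φ.comp f.rangeRestrict, k', hk'⟩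

section
variable {S : Type*} [Fintype S] [DecidableEq S] {M : CoxeterMatrix S}

/-- the leading term criterion -/
lemma li_of_filt {L : Type*} [CommRing L] (P : Par M L) {R : Type*} [Ring R] [Algebra L R]
    (b : S → S → R) (F : RFilt R)
    (hsep : ∀ g : Art M, (∀ i, g ∈ KF P b F i) → g = 1) {H : Subgroup (Art M)} (hH : H.FG)
    (hne : H ≠ ⊥) (h1 : H ≤ KF P b F 1) :
    ∃ φ : H →* Multiplicative ℤ, ∃ k, φ k ≠ 1 := by
  obtain ⟨k, x, s, -, hadd, g, hg, hgne⟩ := exists_hom P b F hsep H hne h1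
  have : Group.FG H := (Group.fg_iff_subgroup_fg H).2 hH
  let f : H →* Multiplicative (R ⧸ F.J (k + 1)) :=
    MonoidHom.mk' (fun h => Multiplicative.ofAdd
      (QuotientAddGroup.mk (Cm P b (h : Art M) x s) : R ⧸ F.J (k + 1)))
      (fun a c => hadd a a.2 c c.2)
  refine to_int ?_ f ⟨⟨g, hg⟩, hgne⟩
  intro n y hn hy
  obtain ⟨r, rfl⟩ := QuotientAddGroup.mk_surjective y
  rw [← QuotientAddGroup.mk_nsmul, QuotientAddGroup.eq_zero_iff] at hy
  rw [QuotientAddGroup.eq_zero_iff]
  exact F.pure _ n r hn hy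

/-- the degree -/
def dg (M : CoxeterMatrix S) : Art M →* Multiplicative ℤ :=
  PresentedGroup.toGroup (f := fun _ => Multiplicative.ofAdd 1) (by
    rintro r ⟨i, j, h, rfl⟩
    rw [map_mul, map_inv, map_alt, map_alt, FreeGroup.lift_apply_of, FreeGroup.lift_apply_of,
      mul_inv_cancel])

lemma dg_sg (s : S) : dg M (sg M s) = Multiplicative.ofAdd 1 := PresentedGroup.toGroup.of _

/-! ### representations whose Gram matrix is constant -/

section const
variable {K : Type*} [CommRing K] (P : Par M K) (b : S → S → K) (θ : K)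
  (hG : ∀ s t, gram P b s t = -θ)
include hG

/-- row sums -/
def rs (g : Art M) (x : S) : K := ∑ k, Cm P b g x k
/-- column sums -/
def cs (g : Art M) (s : S) : K := ∑ k, Cm P b g k s
/-- total sum -/
def ts (g : Art M) : K := ∑ x, rs P b g x

lemma Cm_mul_const (g h : Art M) (x s : S) :
    Cm P b (g * h) x s = Cm P b g x s + Cm P b h x s - θ * rs P b g x * cs P b h s := by
  rw [Cm_mul, Matrix.add_apply, Matrix.add_apply, Matrix.mul_apply]
  have : ∀ k, (Cm P b g * gram P b) x k = - θ * rs P b g x := by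
    intro k
    rw [Matrix.mul_apply, rs, Finset.mul_sum]
    exact Finset.sum_congr rfl (fun l _ => by rw [hG]; ring)
  simp only [this]
  rw [← Finset.mul_sum, cs]
  ring

lemma ts_eq (g : Art M) : ∑ s, cs P b g s = ts P b g := by
  simp only [cs, ts, rs]
  exact Finset.sum_comm

lemma rs_mul (g h : Art M) (x : S) :
    rs P b (g * h) x = rs P b g x + rs P b h x - θ * rs P b g x * ts P b h := by
  rw [← ts_eq P b θ hG h, Finset.mul_sum, rs, rs, rs, ← Finset.sum_add_distrib,
    ← Finset.sum_sub_distrib]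
  exact Finset.sum_congr rfl (fun s _ => Cm_mul_const P b θ hG g h x s)

lemma cs_mul (g h : Art M) (s : S) :
    cs P b (g * h) s = cs P b g s + cs P b h s - θ * ts P b g * cs P b h s := by
  calc cs P b (g * h) s = ∑ x, (Cm P b g x s + Cm P b h x s - θ * rs P b g x * cs P b h s) :=
        Finset.sum_congr rfl (fun x _ => Cm_mul_const P b θ hG g h x s)
    _ = _ := by
        rw [Finset.sum_sub_distrib, Finset.sum_add_distrib, ts, Finset.mul_sum, Finset.sum_mul]
        rfl

lemma ts_mul (g h : Art M) :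
    ts P b (g * h) = ts P b g + ts P b h - θ * ts P b g * ts P b h := by
  have : θ * ts P b g * ts P b h = ∑ x, θ * rs P b g x * ts P b h := by
    rw [← Finset.sum_mul, ← Finset.mul_sum]; rfl
  rw [this]
  simp only [ts]
  rw [← Finset.sum_add_distrib, ← Finset.sum_sub_distrib]
  exact Finset.sum_congr rfl (fun x _ => rs_mul P b θ hG g h x)

/-- the character -/
def chi : Art M →* K where
  toFun g := 1 - θ * ts P b g
  map_one' := by
    have : ts P b (1 : Art M) = 0 := by simp [ts, rs, Cm_one]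
    rw [this]; ring
  map_mul' g h := by
    rw [ts_mul P b θ hG]; ring

lemma ts_sg (s : S) : ts P b (sg M s) = 1 := by
  simp only [ts, rs, Cm_sg, single_apply]
  rw [Finset.sum_eq_single s]
  · rw [Finset.sum_eq_single s]
    · simp
    · intro k _ hk; rw [if_neg (fun h => hk h.2.symm)]
    · intro h; exact absurd (Finset.mem_univ _) h
  · intro x _ hx
    exact Finset.sum_eq_zero (fun k _ => if_neg (fun h => hx h.1.symm))
  · intro h; exact absurd (Finset.mem_univ _) h

lemma ts_zero (u : Kˣ) (hu : (u : K) = 1 - θ) (hθ : IsUnit θ) {g : Art M} (hg : dg M g = 1) :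
    ts P b g = 0 := by
  have h1 : MonoidHom.toHomUnits (chi P b θ hG) = (zpowersHom Kˣ u).comp (dg M) := by
    apply PresentedGroup.ext
    intro s
    apply Units.ext
    change chi P b θ hG (sg M s) = (((zpowersHom Kˣ u) (dg M (sg M s)) : Kˣ) : K)
    rw [dg_sg, zpowersHom_apply, toAdd_ofAdd, zpow_one, hu]
    change 1 - θ * ts P b (sg M s) = _
    rw [ts_sg P b θ hG, mul_one]
  have h2 := congrArg (fun f => ((f g : Kˣ) : K)) h1
  simp only [MonoidHom.comp_apply, hg, map_one, Units.val_one] at h2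
  have h3 : 1 - θ * ts P b g = 1 := h2
  have h4 : θ * ts P b g = 0 := by linear_combination -h3
  exact (hθ.mul_right_eq_zero).1 h4

/-- the dichotomy for representations with constant Gram matrix -/
lemma const_hom (htf : ∀ (n : ℕ) (x : K), n ≠ 0 → n • x = 0 → x = 0)
    (u : Kˣ) (hu : (u : K) = 1 - θ) (hθ : IsUnit θ) {H : Subgroup (Art M)} (hH : H.FG) :
    (∃ φ : H →* Multiplicative ℤ, ∃ k, φ k ≠ 1) ∨ ∀ h ∈ H, Cm P b h = 0 := by
  classical
  by_contra hcon
  rw [not_or] at hcon
  obtain ⟨hno, hex⟩ := hcon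
  have : Group.FG H := (Group.fg_iff_subgroup_fg H).2 hH
  have hdg : ∀ h ∈ H, dg M h = 1 := by
    by_contra hc
    push Not at hc
    obtain ⟨h, hh, hne⟩ := hc
    exact hno ⟨(dg M).comp H.subtype, ⟨h, hh⟩, hne⟩
  have hts : ∀ h ∈ H, ts P b h = 0 := fun h hh => ts_zero P b θ hG u hu hθ (hdg h hh)
  have hrs : ∀ h ∈ H, ∀ x, rs P b h x = 0 := by
    intro h hh x
    by_contra hne
    apply hno
    let f : H →* Multiplicative K :=
      MonoidHom.mk' (fun h => Multiplicative.ofAdd (rs P b (h : Art M) x)) (fun a c => by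
        change Multiplicative.ofAdd (rs P b ((a : Art M) * c) x) = _
        rw [rs_mul P b θ hG, hts _ c.2, mul_zero, sub_zero]; rfl)
    exact to_int htf f ⟨⟨h, hh⟩, hne⟩
  have hcs : ∀ h ∈ H, ∀ x, cs P b h x = 0 := by
    intro h hh x
    by_contra hne
    apply hno
    let f : H →* Multiplicative K :=
      MonoidHom.mk' (fun h => Multiplicative.ofAdd (cs P b (h : Art M) x)) (fun a c => by
        change Multiplicative.ofAdd (cs P b ((a : Art M) * c) x) = _
        rw [cs_mul P b θ hG, hts _ a.2, mul_zero, zero_mul, sub_zero]; rfl)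
    exact to_int htf f ⟨⟨h, hh⟩, hne⟩
  apply hex
  intro h hh
  ext1 x s
  by_contra hne
  apply hno
  let f : H →* Multiplicative K :=
    MonoidHom.mk' (fun h => Multiplicative.ofAdd (Cm P b (h : Art M) x s)) (fun a c => by
      change Multiplicative.ofAdd (Cm P b ((a : Art M) * c) x s) = _
      rw [Cm_mul_const P b θ hG, hrs _ a.2, mul_zero, zero_mul, sub_zero]; rfl)
  exact to_int htf f ⟨⟨h, hh⟩, hne⟩

end const

end

end Pool.Agent.TH107.RF
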