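import Pool.Agent.H13.L.S8.TH107.RF.Mono2

set_option autoImplicit false

namespace Pool.Agent.TH107.RF

open Matrix LaurentPolynomial RFilt

section multi
variable {S : Type*} [Fintype S] [DecidableEq S] {C : Type*} [DecidableEq C] (κ : S → C)

/-- the members of a class -/
abbrev Cls (c : C) := {s : S // κ s = c}

/-- restriction of a Coxeter matrix to a class -/
def Mc (M : CoxeterMatrix S) (c : C) : CoxeterMatrix (Cls κ c) where
  M i j := M i.1 j.1
  isSymm := by
    ext i j
    exact M.symmetric j.1 i.1
  diagonal i := M.diagonal i.1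
  off_diagonal i j h := M.off_diagonal i.1 j.1 (fun h' => h (Subtype.ext h'))

variable {κ} {M : CoxeterMatrix S}

lemma Mc_apply (c : C) (i j : Cls κ c) : Mc κ M c i j = M i.1 j.1 := rfl

lemma Mc_rankTwo (hR : RankTwo M) (c : C) : RankTwo (Mc κ M c) :=
  fun i j k hik hij hjk => hR i.1 j.1 k.1 (fun h => hik (Subtype.ext h)) hij hjk

/-- the retraction to a class -/
def pc (hout : ∀ s t, κ s ≠ κ t → M s t = 0 ∨ M s t = 2) (c : C) : Art M →* Art (Mc κ M c) :=
  PresentedGroup.toGroup (f := fun s => if h : κ s = c then sg (Mc κ M c) ⟨s, h⟩ else 1) (by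
    rintro r ⟨i, j, h, rfl⟩
    rw [map_mul, map_inv, map_alt, map_alt, FreeGroup.lift_apply_of, FreeGroup.lift_apply_of,
      mul_inv_eq_one]
    by_cases hi : κ i = c
    · by_cases hj : κ j = c
      · rw [dif_pos hi, dif_pos hj]
        exact sg_braid (M := Mc κ M c) (s := ⟨i, hi⟩) (t := ⟨j, hj⟩) h
      · have h2 : M i j = 2 := by
          rcases hout i j (fun h' => hj (h' ▸ hi)) with h' | h'
          · exact absurd h' h
          · exact h'
        rw [dif_pos hi, dif_neg hj, h2]
        simp [alt]
    · by_cases hj : κ j = c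
      · have h2 : M i j = 2 := by
          rcases hout i j (fun h' => hi (h' ▸ hj)) with h' | h'
          · exact absurd h' h
          · exact h'
        rw [dif_neg hi, dif_pos hj, h2]
        simp [alt]
      · rw [dif_neg hi, dif_neg hj])

lemma pc_sg (hout : ∀ s t, κ s ≠ κ t → M s t = 0 ∨ M s t = 2) (c : C) (s : S) :
    pc hout c (sg M s) = if h : κ s = c then sg (Mc κ M c) ⟨s, h⟩ else 1 :=
  PresentedGroup.toGroup.of _

variable {L : Type*} [CommRing L] (P : Par M L) {R : Type*} [Ring R] [Algebra L R]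
  (b : S → S → R)

/-- restriction of the parameters -/
def Pc (κ : S → C) (c : C) : Par (Mc κ M c) L where
  v := P.v
  w := P.w
  vw := P.vw
  lam s t := P.lam s.1 t.1
  symm s t := P.symm s.1 t.1
  cheb s t hst h0 := P.cheb s.1 t.1 (fun h => hst (Subtype.ext h)) h0

lemma gram_Pc (c : C) (s t : Cls κ c) :
    gram (Pc P κ c) (fun a d => b a.1 d.1) s t = gram P b s.1 t.1 := by
  have e : (s = t) ↔ (s.1 = t.1) := Subtype.ext_iff
  by_cases hst : s = t
  · subst hst; rw [gram_self, gram_self]; rfl
  · have hst' : s.1 ≠ t.1 := fun h => hst (e.2 h)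
    by_cases h0 : M s.1 t.1 = 0
    · rw [gram_inf _ _ hst (by rw [Mc_apply]; exact h0), gram_inf _ _ hst' h0]
    · rw [gram_fin _ _ hst (by rw [Mc_apply]; exact h0), gram_fin _ _ hst' h0]; rfl

/-- block form of a group element -/
def BD (hout : ∀ s t, κ s ≠ κ t → M s t = 0 ∨ M s t = 2) (g : Art M) : Prop :=
  (∀ s t, κ s ≠ κ t → Cm P b g s t = 0) ∧ ∀ (c : C) (s t : Cls κ c),
    Cm P b g s.1 t.1 = Cm (Pc P κ c) (fun a d => b a.1 d.1) (pc hout c g) s t

lemma single_mul_mul_apply (s : S) (a : R) (G Y : Matrix S S R) (x t : S) :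
    (single s s a * G * Y) x t = if x = s then a * ∑ l, G s l * Y l t else 0 := by
  rw [Matrix.mul_assoc]
  by_cases h : x = s
  · subst h
    rw [if_pos rfl, Matrix.single_mul_apply_same, Matrix.mul_apply]
  · rw [if_neg h, Matrix.single_mul_apply_of_ne (h := h)]

lemma BD_step (hout : ∀ s t, κ s ≠ κ t → M s t = 0 ∨ M s t = 2)
    (hb : ∀ s t, κ s ≠ κ t → gram P b s t = 0) {u y : Art M} {s : S} {a : R}
    (hu : Cm P b u = single s s a)
    (hu1 : ∀ h : κ s = κ s, Cm (Pc P κ (κ s)) (fun a d => b a.1 d.1) (pc hout (κ s) u) =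
      single ⟨s, h⟩ ⟨s, h⟩ a)
    (hu2 : ∀ c, κ s ≠ c → pc hout c u = 1) (hy : BD P b hout y) : BD P b hout (u * y) := by
  obtain ⟨y1, y2⟩ := hy
  constructor
  · intro x t hxt
    rw [Cm_mul, hu, Matrix.add_apply, Matrix.add_apply, y1 x t hxt, single_mul_mul_apply,
      single_apply, if_neg (fun h => hxt (by rw [← h.1, ← h.2])), add_zero, zero_add]
    split_ifs with hx
    · subst hx
      rw [Finset.sum_eq_zero, mul_zero]
      intro l _
      by_cases hl : κ x = κ l
      · rw [y1 l t (by rw [← hl]; exact hxt), mul_zero]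
      · rw [hb x l hl, zero_mul]
    · rfl
  · intro c x t
    by_cases hc : κ s = c
    · subst hc
      rw [Cm_mul, hu, map_mul, Cm_mul, hu1 rfl, Matrix.add_apply, Matrix.add_apply,
        Matrix.add_apply, Matrix.add_apply, y2, single_mul_mul_apply, single_mul_mul_apply,
        single_apply, single_apply]
      have e1 : (s = x.1 ∧ s = t.1) ↔ ((⟨s, rfl⟩ : Cls κ (κ s)) = x ∧
          (⟨s, rfl⟩ : Cls κ (κ s)) = t) := by
        rw [Subtype.ext_iff, Subtype.ext_iff]
      have e2 : (x.1 = s) ↔ (x = (⟨s, rfl⟩ : Cls κ (κ s))) := by rw [Subtype.ext_iff]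
      have e3 : ∑ l, gram P b s l * Cm P b y l t.1 =
          ∑ l : Cls κ (κ s), gram (Pc P κ (κ s)) (fun a d => b a.1 d.1) ⟨s, rfl⟩ l *
            Cm (Pc P κ (κ s)) (fun a d => b a.1 d.1) (pc hout (κ s) y) l t := by
        calc ∑ l, gram P b s l * Cm P b y l t.1 =
            ∑ l ∈ Finset.univ.filter (fun l => κ l = κ s), gram P b s l * Cm P b y l t.1 := by
              symm
              apply Finset.sum_filter_of_ne
              intro l _ hne
              by_contra hl
              exact hne (by rw [hb s l (fun h => hl h.symm), zero_mul])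
          _ = ∑ l : Cls κ (κ s), gram P b s l.1 * Cm P b y l.1 t.1 :=
              Finset.sum_subtype _ (by simp) _
          _ = _ := Finset.sum_congr rfl (fun l _ => by
              rw [gram_Pc P b (κ s) ⟨s, rfl⟩ l, y2])
      simp only [e1, e2, e3]
    · rw [Cm_mul, hu, map_mul, hu2 c hc, one_mul, Matrix.add_apply, Matrix.add_apply, y2,
        single_mul_mul_apply, single_apply,
        if_neg (fun h => hc (by rw [h.1]; exact x.2)),
        if_neg (fun h => hc (by rw [← h]; exact x.2)), zero_add, add_zero]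

lemma BD_all (hout : ∀ s t, κ s ≠ κ t → M s t = 0 ∨ M s t = 2)
    (hb : ∀ s t, κ s ≠ κ t → gram P b s t = 0) (g : Art M) : BD P b hout g := by
  have key : g ∈ (⊤ : Subgroup (Art M)) := trivial
  rw [← cl_univ, cl] at key
  induction key using Subgroup.closure_induction_left with
  | one =>
    refine ⟨fun s t _ => by rw [Cm_one]; rfl, fun c s t => ?_⟩
    rw [map_one, Cm_one, Cm_one]; rfl
  | mul_left u hu y _ hy =>
    obtain ⟨s, -, rfl⟩ := hu
    refine BD_step P b hout hb (s := s) (a := 1) (Cm_sg P b s) ?_ ?_ hy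
    · intro h
      rw [pc_sg, dif_pos rfl, Cm_sg]
    · intro c hc
      rw [pc_sg, dif_neg hc]
  | inv_mul_cancel u hu y _ hy =>
    obtain ⟨s, -, rfl⟩ := hu
    refine BD_step P b hout hb (s := s) (a := algebraMap L R (P.w ^ 2)) (Cm_sg_inv P b s) ?_ ?_ hy
    · intro h
      rw [map_inv, pc_sg, dif_pos rfl, Cm_sg_inv]; rfl
    · intro c hc
      rw [map_inv, pc_sg, dif_neg hc, inv_one]

/-- if all retractions to the classes are trivial, so is the block matrix -/
lemma Cm_zero_of_pc (hout : ∀ s t, κ s ≠ κ t → M s t = 0 ∨ M s t = 2)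
    (hb : ∀ s t, κ s ≠ κ t → gram P b s t = 0) {g : Art M} (hg : ∀ c, pc hout c g = 1) :
    Cm P b g = 0 := by
  obtain ⟨h1, h2⟩ := BD_all P b hout hb g
  ext1 s t
  by_cases h : κ s = κ t
  · have := h2 (κ s) ⟨s, rfl⟩ ⟨t, h.symm⟩
    rw [hg, Cm_one] at this
    exact this
  · rw [h1 s t h]; rfl

/-! ### the filtration by the number of letters joining different classes -/

open Classical in
/-- number of letters joining different classes -/
noncomputable def cr (κ : S → C) (w : FreeMonoid (S × S)) : ℕ :=
  (w.toList.filter (fun p => κ p.1 ≠ κ p.2)).length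

omit [Fintype S] [DecidableEq S] in
lemma cr_mul (u v : FreeMonoid (S × S)) : cr κ (u * v) = cr κ u + cr κ v := by
  classical
  rw [cr, cr, cr, ← List.length_append, ← List.filter_append]; rfl

/-- the filtration -/
noncomputable def filC (κ : S → C) (hu : ∀ n : ℕ, n ≠ 0 → IsUnit (n : L)) : RFilt (FA S L) where
  J k :=
    { carrier := {f | ∀ w : FreeMonoid (S × S), cr κ w < k → f.coeff w = 0}
      zero_mem' := fun w _ => by rw [MonoidAlgebra.coeff_zero]; rfl
      add_mem' := fun {f g} hf hg w hw => by
        rw [MonoidAlgebra.coeff_add, Finsupp.add_apply, hf w hw, hg w hw, add_zero]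
      neg_mem' := fun {f} hf w hw => by
        rw [MonoidAlgebra.coeff_neg, Finsupp.neg_apply, hf w hw, neg_zero] }
  zero := by
    ext f
    exact ⟨fun _ => trivial, fun _ w hw => absurd hw (Nat.not_lt_zero _)⟩
  anti i := fun f hf w hw => hf w (by omega)
  mul i j f g hf hg := by
    classical
    rw [MonoidAlgebra.mul_def]
    apply AddSubgroup.sum_mem
    intro u _
    apply AddSubgroup.sum_mem
    intro v _
    intro w hw
    rw [MonoidAlgebra.coeff_single, Finsupp.single_apply]
    split_ifs with h
    · rw [← h, cr_mul] at hw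
      rcases Nat.lt_or_ge (cr κ u) i with h1 | h1
      · rw [hf u h1, zero_mul]
      · rw [hg v (by omega), mul_zero]
    · rfl
  pure i n f hn hf := by
    intro w hw
    have h1 := hf w hw
    rw [MonoidAlgebra.coeff_smul, Finsupp.smul_apply, nsmul_eq_mul] at h1
    exact ((hu n hn).mul_right_eq_zero).1 h1

open Classical in
/-- killing the letters joining different classes -/
noncomputable def kil (κ : S → C) (L : Type*) [CommRing L] : FA S L →ₐ[L] FA S L :=
  MonoidAlgebra.lift L (FA S L) (FreeMonoid (S × S))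
    (FreeMonoid.lift (fun p => if κ p.1 = κ p.2 then bf S L p.1 p.2 else 0))

omit [Fintype S] [DecidableEq S] in
lemma cr_of (p : S × S) : cr κ (FreeMonoid.of p) = if κ p.1 = κ p.2 then 0 else 1 := by
  classical
  have : (FreeMonoid.of p).toList = [p] := rfl
  rw [cr, this]
  by_cases h : κ p.1 = κ p.2
  · rw [if_pos h]; simp [h]
  · rw [if_neg h]; simp [h]

open Classical in
omit [Fintype S] [DecidableEq S] in
lemma kil_word (w : FreeMonoid (S × S)) :
    (FreeMonoid.lift (fun p => if κ p.1 = κ p.2 then bf S L p.1 p.2 else 0) w : FA S L) =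
      if cr κ w = 0 then MonoidAlgebra.single w 1 else 0 := by
  induction w using FreeMonoid.recOn with
  | one => rw [map_one]; rfl
  | of_mul p w ih =>
    rw [map_mul, FreeMonoid.lift_eval_of, ih, cr_mul, cr_of]
    by_cases h : κ p.1 = κ p.2
    · rw [if_pos h, if_pos h, zero_add]
      split_ifs
      · rw [bf, MonoidAlgebra.single_mul_single, one_mul]
      · rw [mul_zero]
    · rw [if_neg h, if_neg h, zero_mul, if_neg (by omega)]

open Classical in
omit [Fintype S] [DecidableEq S] in
lemma kil_apply (f : FA S L) (w : FreeMonoid (S × S)) :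
    (kil κ L f).coeff w = if cr κ w = 0 then f.coeff w else 0 := by
  induction f using MonoidAlgebra.induction_linear with
  | zero => simp
  | add f g hf hg =>
    rw [map_add, MonoidAlgebra.coeff_add, Finsupp.add_apply, hf, hg, MonoidAlgebra.coeff_add,
      Finsupp.add_apply]
    split_ifs <;> simp
  | single m a =>
    rw [kil, MonoidAlgebra.lift_single, kil_word]
    by_cases hm : cr κ m = 0
    · rw [if_pos hm, MonoidAlgebra.smul_single, smul_eq_mul, mul_one]
      rw [MonoidAlgebra.coeff_single, Finsupp.single_apply]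
      by_cases h : m = w
      · subst h; rw [if_pos rfl, if_pos hm]
      · rw [if_neg h]; simp
    · rw [if_neg hm, smul_zero, MonoidAlgebra.coeff_single, Finsupp.single_apply]
      by_cases h : m = w
      · subst h; rw [if_neg hm]; rfl
      · rw [if_neg h]; simp

/-- elements killed by all retractions lie in the first member of the filtration -/
lemma mem_filC (hu : ∀ n : ℕ, n ≠ 0 → IsUnit (n : L))
    (hout : ∀ s t, κ s ≠ κ t → M s t = 0 ∨ M s t = 2)
    (hlam : ∀ s t, s ≠ t → M s t = 2 → P.lam s t = 0) {g : Art M} (hg : ∀ c, pc hout c g = 1) :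
    g ∈ KF P (bf S L) (filC κ hu) 1 := by
  classical
  let b0 : S → S → FA S L := fun s t => if κ s = κ t then bf S L s t else 0
  have h0 : Cm P b0 g = 0 := by
    apply Cm_zero_of_pc P b0 hout _ hg
    intro s t hst
    have hne : s ≠ t := fun h => hst (by rw [h])
    rcases hout s t hst with h | h
    · rw [gram_inf _ _ hne h]; exact if_neg hst
    · rw [gram_fin _ _ hne (by rw [h]; norm_num), hlam s t hne h, mul_zero, map_zero]
  have e : Cm P b0 g = (Cm P (bf S L) g).map (kil κ L : FA S L →+* FA S L) := by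
    apply Cm_nat
    intro a b
    by_cases hab : a = b
    · subst hab
      rw [gram_self, gram_self]
      exact (kil κ L).commutes _
    · by_cases h0 : M a b = 0
      · rw [gram_inf _ _ hab h0, gram_inf _ _ hab h0]
        change kil κ L (bf S L a b) = _
        rw [kil, bf, MonoidAlgebra.lift_single, FreeMonoid.lift_eval_of, one_smul]
      · rw [gram_fin _ _ hab h0, gram_fin _ _ hab h0]
        exact (kil κ L).commutes _
  rw [mem_KF]
  intro x s w hw
  have hw0 : cr κ w = 0 := by omega
  rw [e] at h0
  have h1 := congrFun (congrFun h0 x) s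
  rw [Matrix.map_apply] at h1
  have h2 := kil_apply (κ := κ) (Cm P (bf S L) g x s) w
  rw [if_pos hw0] at h2
  rw [← h2]
  have h3 : kil κ L (Cm P (bf S L) g x s) = 0 := h1
  rw [h3]; rfl

end multi

section
variable {S : Type*} [Fintype S] [DecidableEq S] {M : CoxeterMatrix S}
variable {C : Type*} [DecidableEq C] {κ : S → C}

/-- local indicability passes from the classes to the whole Artin group -/
theorem li_classes (hR : RankTwo M) (hout : ∀ s t, κ s ≠ κ t → M s t = 0 ∨ M s t = 2)
    (hcl : ∀ c, LI (Art (Mc κ M c))) : LI (Art M) := by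
  intro H hH hne
  by_cases hex : ∃ c, ∃ h ∈ H, pc hout c h ≠ 1
  · obtain ⟨c, h, hh, hc⟩ := hex
    exact (hcl c).of_hom hH ((pc hout c).comp H.subtype) ⟨⟨h, hh⟩, hc⟩
  · push Not at hex
    apply li_of_filt (PR M) (bf S ℝ[T;T⁻¹]) (filC κ unit_nat) ?_ hH hne
    · intro g hg
      refine mem_filC (PR M) unit_nat hout ?_ (fun c => hex c g hg)
      intro s t hst h2
      change LaurentPolynomial.C (lamR M s t) = 0
      rw [lamR, h2]
      simp
    · intro g hg
      apply faithful0 hR
      ext1 x s
      apply MonoidAlgebra.ext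
      apply Finsupp.ext
      intro w
      exact hg (cr κ w + 1) x s w (Nat.lt_succ_self _)

/-- Artin groups whose generators fall into classes such that labels between different classes are
two or infinity, and labels inside a class are infinity or a number at least three depending on the
class only, without triangles, are locally indicable -/
theorem li_homog (hR : RankTwo M) (m : C → ℕ) (hm : ∀ c, 3 ≤ m c)
    (hin : ∀ s t, s ≠ t → κ s = κ t → M s t = 0 ∨ M s t = m (κ s))
    (hout : ∀ s t, κ s ≠ κ t → M s t = 0 ∨ M s t = 2) : LI (Art M) := by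
  apply li_classes hR hout
  intro c
  apply li_single (Mc_rankTwo hR c) (hm c)
  rintro ⟨s, rfl⟩ ⟨t, ht⟩ hst h0
  rcases hin s t (fun h => hst (Subtype.ext h)) ht.symm with h | h
  · exact absurd h h0
  · exact h

end

end Pool.Agent.TH107.RF
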