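import Pool.Agent.H13.L.S8.TH107.RF.Circ

set_option autoImplicit false

namespace Pool.Agent.TH107.RF

section
variable {H : Type*} [Group H] (a b : H)

/-- the letter -/
def el : Bool → H
  | true => a
  | false => b

/-- evaluation of a word -/
def wp (l : List Bool) : H := (l.map (el a b)).prod

@[simp] lemma wp_nil : wp a b [] = 1 := rfl
lemma wp_cons (x : Bool) (l : List Bool) : wp a b (x :: l) = el a b x * wp a b l := by simp [wp]

/-- length of the maximal alternating prefix -/
def run : List Bool → ℕ
  | [] => 0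
  | [_] => 1
  | x :: y :: l => if x = y then 1 else run (y :: l) + 1

/-- no alternating factor of length `m` -/
def DF (m : ℕ) : List Bool → Prop
  | [] => True
  | x :: l => run (x :: l) < m ∧ DF m l

lemma run_pos (x : Bool) (l : List Bool) : 1 ≤ run (x :: l) := by
  cases l with
  | nil => simp [run]
  | cons y l => simp only [run]; split_ifs <;> omega

lemma run_le_succ (x : Bool) (l : List Bool) : run (x :: l) ≤ run l + 1 := by
  cases l with
  | nil => simp [run]
  | cons y l => simp only [run]; split_ifs <;> omega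

lemma DF.drop {m : ℕ} : ∀ {l : List Bool} (_ : DF m l) (k : ℕ), DF m (l.drop k)
  | [], _, k => by simp [DF]
  | x :: l, h, 0 => h
  | x :: l, h, k + 1 => by simpa using DF.drop h.2 k

lemma DF.run_lt {m : ℕ} (hm : 1 ≤ m) {l : List Bool} (h : DF m l) : run l < m := by
  cases l with
  | nil => simp [run]; omega
  | cons x l => exact h.1

lemma wp_run (k : ℕ) : ∀ (x : Bool) (l : List Bool), k ≤ run (x :: l) →
    wp a b (x :: l) = alt k (el a b x) (el a b !x) * wp a b ((x :: l).drop k) := by
  induction k with
  | zero => intro x l _; simp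
  | succ k ih =>
    intro x l hk
    rw [alt_succ, wp_cons, List.drop_succ_cons, mul_assoc]
    congr 1
    cases k with
    | zero => simp
    | succ k =>
      cases l with
      | nil => simp [run] at hk
      | cons y l =>
        simp only [run] at hk
        have hxy : x ≠ y := by
          intro h; rw [if_pos h] at hk; omega
        rw [if_neg hxy] at hk
        have hy : y = !x := by cases x <;> cases y <;> simp_all
        rw [ih y l (by omega), hy, Bool.not_not]

lemma alt_succ_last (k : ℕ) (a b : H) :
    alt (k + 1) a b = alt k a b * (if Even k then a else b) := by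
  induction k generalizing a b with
  | zero => simp [alt]
  | succ k ih =>
    rw [alt_succ, ih b a, ← mul_assoc, ← alt_succ]
    congr 1
    by_cases h : Even k
    · have : ¬ Even (k + 1) := by rw [Nat.even_add_one, not_not]; exact h
      simp [h, this]
    · have : Even (k + 1) := by rw [Nat.even_add_one]; exact h
      simp [h, this]

variable {a b} {m : ℕ} (hab : alt m a b = alt m b a)
include hab

lemma alt_el (x : Bool) : alt m (el a b x) (el a b !x) = alt m a b := by
  cases x
  · exact hab.symm
  · rfl

lemma el_mul_delta (x : Bool) : ∃ y : Bool, el a b x * alt m a b = alt m a b * el a b y := by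
  refine ⟨if Even m then x else !x, ?_⟩
  have h : alt (m + 1) (el a b x) (el a b !x) = el a b x * alt m (el a b !x) (el a b x) :=
    alt_succ _ _ _
  have h2 := alt_el hab (!x)
  rw [Bool.not_not] at h2
  rw [h2] at h
  rw [← h, alt_succ_last, alt_el hab x]
  split_ifs <;> rfl

lemma delta_mul_el (x : Bool) : ∃ y : Bool, alt m a b * el a b x = el a b y * alt m a b := by
  refine ⟨if Even m then x else !x, ?_⟩
  have h : alt (m + 1) (el a b (if Even m then x else !x)) (el a b !(if Even m then x else !x)) =
    el a b (if Even m then x else !x) * alt m (el a b !(if Even m then x else !x))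
      (el a b (if Even m then x else !x)) := alt_succ _ _ _
  have h2 := alt_el hab (!(if Even m then x else !x))
  rw [Bool.not_not] at h2
  rw [h2] at h
  rw [← h, alt_succ_last, alt_el hab]
  split_ifs <;> simp

lemma el_mul_zpow (j : ℤ) : ∀ x : Bool, ∃ y : Bool,
    el a b x * (alt m a b) ^ j = (alt m a b) ^ j * el a b y := by
  induction j using Int.induction_on with
  | zero => intro x; exact ⟨x, by simp⟩
  | succ i ih =>
    intro x
    obtain ⟨y, hy⟩ := ih x
    obtain ⟨z, hz⟩ := el_mul_delta hab y
    exact ⟨z, by rw [zpow_add_one, ← mul_assoc, hy, mul_assoc, hz, mul_assoc]⟩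
  | pred i ih =>
    intro x
    obtain ⟨y, hy⟩ := ih x
    obtain ⟨z, hz⟩ := delta_mul_el hab y
    refine ⟨z, ?_⟩
    have hz' : el a b y * (alt m a b)⁻¹ = (alt m a b)⁻¹ * el a b z := by
      rw [mul_inv_eq_iff_eq_mul, mul_assoc, ← hz, inv_mul_cancel_left]
    rw [zpow_sub_one, ← mul_assoc, hy, mul_assoc, hz', mul_assoc]

/-- normal forms -/
def IsNF (a b : H) (m : ℕ) (g : H) : Prop :=
  ∃ (j : ℤ) (l : List Bool), DF m l ∧ g = (alt m a b) ^ j * wp a b l

lemma nf_mul_el (hm : 2 ≤ m) {g : H} (hg : IsNF a b m g) (x : Bool) :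
    IsNF a b m (el a b x * g) := by
  obtain ⟨j, l, hl, rfl⟩ := hg
  obtain ⟨y, hy⟩ := el_mul_zpow hab j x
  rw [← mul_assoc, hy, mul_assoc, ← wp_cons]
  by_cases h : run (y :: l) < m
  · exact ⟨j, y :: l, ⟨h, hl⟩, rfl⟩
  · have h1 := run_le_succ y l
    have h2 := hl.run_lt (by omega)
    have h3 : m ≤ run (y :: l) := by omega
    rw [wp_run a b m y l h3, alt_el hab, ← mul_assoc, ← zpow_add_one]
    refine ⟨j + 1, _, ?_, rfl⟩
    obtain ⟨k, rfl⟩ : ∃ k, m = k + 1 := ⟨m - 1, by omega⟩
    rw [List.drop_succ_cons]
    exact hl.drop k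

lemma nf_mul_delta {g : H} (hg : IsNF a b m g) (i : ℤ) : IsNF a b m ((alt m a b) ^ i * g) := by
  obtain ⟨j, l, hl, rfl⟩ := hg
  exact ⟨i + j, l, hl, by rw [← mul_assoc, ← zpow_add]⟩

lemma nf_mul_alt (hm : 2 ≤ m) (k : ℕ) : ∀ (x : Bool) {g : H}, IsNF a b m g →
    IsNF a b m (alt k (el a b x) (el a b !x) * g) := by
  induction k with
  | zero => intro x g hg; simpa using hg
  | succ k ih =>
    intro x g hg
    rw [alt_succ, mul_assoc]
    apply nf_mul_el hab hm
    have := ih (!x) hg
    rwa [Bool.not_not] at this

lemma nf_mul_el_inv (hm : 2 ≤ m) {g : H} (hg : IsNF a b m g) (x : Bool) :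
    IsNF a b m ((el a b x)⁻¹ * g) := by
  obtain ⟨k, rfl⟩ : ∃ k, m = k + 1 := ⟨m - 1, by omega⟩
  have h : (el a b x)⁻¹ = alt k (el a b !x) (el a b x) * (alt (k + 1) a b) ^ (-1 : ℤ) := by
    have := alt_el hab x
    rw [alt_succ] at this
    rw [zpow_neg_one, ← this]
    group
  rw [h, mul_assoc]
  have := nf_mul_alt hab hm k (!x) (nf_mul_delta hab hg (-1))
  rwa [Bool.not_not] at this

lemma nf_all (hm : 2 ≤ m) {g : H} (hg : g ∈ Subgroup.closure ({a, b} : Set H)) :
    IsNF a b m g := by
  induction hg using Subgroup.closure_induction_left with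
  | one => exact ⟨0, [], trivial, by simp⟩
  | mul_left x hx y _ ih =>
    rcases hx with rfl | hx
    · exact nf_mul_el hab hm ih true
    · rw [Set.mem_singleton_iff] at hx
      subst hx
      exact nf_mul_el hab hm ih false
  | inv_mul_cancel x hx y _ ih =>
    rcases hx with rfl | hx
    · exact nf_mul_el_inv hab hm ih true
    · rw [Set.mem_singleton_iff] at hx
      subst hx
      exact nf_mul_el_inv hab hm ih false

end

end Pool.Agent.TH107.RF
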