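import Pool.Agent.H13.L.S8.TH107.RF.Base

set_option autoImplicit false

namespace Pool.Agent.TH107.RF

open Matrix

section word
variable {S : Type*} [DecidableEq S] (K : Type*) [CommRing K] (w : List (S × S))

/-- matrices reading a word -/
def Bm (p : S × S) : Matrix (Fin (w.length + 1)) (Fin (w.length + 1)) K :=
  fun i j => if w.drop i = p :: w.drop j then 1 else 0

/-- the monoid homomorphism reading a word -/
def Bh : FreeMonoid (S × S) →* Matrix (Fin (w.length + 1)) (Fin (w.length + 1)) K :=
  FreeMonoid.lift (Bm K w)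

omit [DecidableEq S] in
lemma drop_inj {i j : Fin (w.length + 1)} (h : w.drop i = w.drop j) : i = j := by
  have := congrArg List.length h
  rw [List.length_drop, List.length_drop] at this
  ext
  omega

lemma Bh_apply (m : List (S × S)) : ∀ i j : Fin (w.length + 1),
    Bh K w (FreeMonoid.ofList m) i j = if w.drop i = m ++ w.drop j then 1 else 0 := by
  induction m with
  | nil =>
    intro i j
    have : (FreeMonoid.ofList [] : FreeMonoid (S × S)) = 1 := rfl
    rw [this, map_one, Matrix.one_apply, List.nil_append]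
    by_cases h : i = j
    · rw [if_pos h, if_pos (by rw [h])]
    · rw [if_neg h, if_neg (fun h' => h (drop_inj w h'))]
  | cons p m ih =>
    intro i j
    have : (FreeMonoid.ofList (p :: m) : FreeMonoid (S × S)) =
      FreeMonoid.of p * FreeMonoid.ofList m := rfl
    rw [this, map_mul, Matrix.mul_apply]
    have e : ∀ k, Bh K w (FreeMonoid.of p) i k = if w.drop i = p :: w.drop k then 1 else 0 := by
      intro k
      rw [Bh, FreeMonoid.lift_eval_of]; rfl
    by_cases h : w.drop i = p :: m ++ w.drop j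
    · rw [if_pos h]
      have hi : (i : ℕ) < w.length := by
        by_contra hc
        rw [List.drop_eq_nil_of_le (by omega)] at h
        simp at h
      have h1 : w.drop (i + 1) = m ++ w.drop j := by
        have : w.drop (i + 1) = (w.drop i).tail := by rw [List.tail_drop]
        rw [this, h]; rfl
      rw [Finset.sum_eq_single (⟨i + 1, by omega⟩ : Fin (w.length + 1))]
      · rw [e, ih, if_pos, if_pos h1, one_mul]
        rw [h]
        change _ = p :: w.drop (i + 1)
        rw [h1]; rfl
      · intro k _ hk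
        rw [e, if_neg, zero_mul]
        intro h2
        apply hk
        apply drop_inj w
        change w.drop k = w.drop (i + 1)
        have : w.drop (i + 1) = (w.drop i).tail := by rw [List.tail_drop]
        rw [this, h2]; rfl
      · intro h'; exact absurd (Finset.mem_univ _) h'
    · rw [if_neg h]
      apply Finset.sum_eq_zero
      intro k _
      rw [e, ih]
      by_cases h1 : w.drop i = p :: w.drop k
      · rw [if_pos h1, if_neg (fun h2 => h (by rw [h1, h2]; rfl)), mul_zero]
      · rw [if_neg h1, zero_mul]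

variable {K} {A : Type*} [CommRing A] (φ : A →+* K)

lemma fw_comm (x : A) (y : FreeMonoid (S × S)) :
    Commute (((algebraMap K (Matrix (Fin (w.length + 1)) (Fin (w.length + 1)) K)).comp φ) x)
      (Bh K w y) := Algebra.commutes (φ x) _

/-- the ring homomorphism reading a word -/
noncomputable def fw : FA S A →+* Matrix (Fin (w.length + 1)) (Fin (w.length + 1)) K :=
  MonoidAlgebra.liftNCRingHom
    ((algebraMap K (Matrix (Fin (w.length + 1)) (Fin (w.length + 1)) K)).comp φ) (Bh K w)
    (fw_comm w φ)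

lemma fw_single (m : FreeMonoid (S × S)) (a : A) (i j : Fin (w.length + 1)) :
    fw w φ (MonoidAlgebra.single m a) i j =
      if w.drop i = m.toList ++ w.drop j then φ a else 0 := by
  rw [fw, MonoidAlgebra.liftNCRingHom_single, RingHom.comp_apply, ← Algebra.smul_def,
    Matrix.smul_apply]
  have := Bh_apply K w m.toList i j
  rw [FreeMonoid.ofList_toList] at this
  rw [this, smul_eq_mul, mul_ite, mul_one, mul_zero]

lemma fw_apply (x : FA S A) (i j : Fin (w.length + 1)) :
    fw w φ x i j = x.coeff.sum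
      (fun m a => if w.drop i = m.toList ++ w.drop j then φ a else 0) := by
  induction x using MonoidAlgebra.induction_linear with
  | zero => simp
  | add f g hf hg =>
    rw [map_add, Matrix.add_apply, hf, hg, MonoidAlgebra.coeff_add, Finsupp.sum_add_index']
    · intro m; simp
    · intro m a b; split_ifs <;> simp
  | single m a =>
    rw [fw_single, MonoidAlgebra.coeff_single, Finsupp.sum_single_index]
    simp

lemma fw_corner (x : FA S A) :
    fw w φ x 0 (Fin.last _) = φ (x.coeff (FreeMonoid.ofList w)) := by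
  rw [fw_apply]
  have e : ∀ (m : FreeMonoid (S × S)) (a : A),
      (if w.drop ((0 : Fin (w.length + 1)) : ℕ) =
        m.toList ++ w.drop (Fin.last w.length : Fin (w.length + 1)) then φ a else 0) =
      if w = m.toList then φ a else 0 := by
    intro m a
    congr 1
    simp only [Fin.val_zero, List.drop_zero, Fin.val_last, List.drop_length, List.append_nil]
  simp only [e]
  rw [Finsupp.sum_eq_single (FreeMonoid.ofList w)]
  · rw [if_pos (FreeMonoid.toList_ofList w).symm]
  · intro m _ hm
    rw [if_neg]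
    intro h
    apply hm
    rw [h]; rfl
  · intro _; simp

lemma fw_zero (x : FA S A) (h : ∀ m : FreeMonoid (S × S), m.length ≤ w.length →
    φ (x.coeff m) = 0) : fw w φ x = 0 := by
  ext1 i j
  rw [fw_apply, Matrix.zero_apply, Finsupp.sum]
  apply Finset.sum_eq_zero
  intro m _
  split_ifs with h1
  · apply h
    have := congrArg List.length h1
    rw [List.length_append, List.length_drop] at this
    have h2 : m.length = m.toList.length := rfl
    omega
  · rfl

end word

section
variable {S : Type*} [Fintype S] [DecidableEq S] {M : CoxeterMatrix S}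

/-- change of base ring -/
def Par.map {L L' : Type*} [CommRing L] [CommRing L'] (P : Par M L) (φ : L →+* L') :
    Par M L' where
  v := φ P.v
  w := φ P.w
  vw := by rw [← map_mul, P.vw, map_one]
  lam s t := φ (P.lam s t)
  symm s t := by rw [P.symm]
  cheb s t hst h0 := by rw [← map_chb, P.cheb s t hst h0, map_zero]

variable {A K : Type*} [CommRing A] [CommRing K] (P : Par M A) (φ : A →+* K)
  (w : List (S × S))

/-- the finite representation -/
abbrev Cw (g : Art M) : Matrix S S (Matrix (Fin (w.length + 1)) (Fin (w.length + 1)) K) :=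
  Cm (P.map φ) (fun s t => Bm K w (s, t)) g

lemma Cw_eq (g : Art M) : Cw P φ w g = (CG P g).map (fw w φ) := by
  apply Cm_nat
  intro a b
  have key : ∀ x : A, fw w φ (algebraMap A (FA S A) x) =
      algebraMap K (Matrix (Fin (w.length + 1)) (Fin (w.length + 1)) K) (φ x) := by
    intro x
    have : algebraMap A (FA S A) x = MonoidAlgebra.single 1 x := by simp
    rw [this, fw, MonoidAlgebra.liftNCRingHom_single, map_one, mul_one]
    rfl
  by_cases hab : a = b
  · subst hab
    rw [gram_self, gram_self, key]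
    simp [Par.map]
  · by_cases h0 : M a b = 0
    · rw [gram_inf _ _ hab h0, gram_inf _ _ hab h0, bf, fw, MonoidAlgebra.liftNCRingHom_single,
        map_one, one_mul, Bh, FreeMonoid.lift_eval_of]
    · rw [gram_fin _ _ hab h0, gram_fin _ _ hab h0, key]
      simp [Par.map]

lemma rho_eq_one_iff {L : Type*} [CommRing L] (P : Par M L) {R : Type*} [Ring R] [Algebra L R]
    (b : S → S → R) (g : Art M) : rho P b g = 1 ↔ Cm P b g = 0 := by
  constructor
  · intro h; rw [Cm, h]; rfl
  · intro h
    apply Units.ext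
    ext1
    exact h

instance {R : Type*} [Ring R] [Finite R] (G : Matrix S S R) : Finite (Circ G) :=
  Finite.of_injective (fun x : Circ G => x.val) (fun x y h => Circ.ext h)

/-- the finite group -/
abbrev Fg := (Circ (gram (P.map φ) (fun s t => Bm K w (s, t))))ˣ

/-- the homomorphism to a finite group -/
noncomputable abbrev rw' : Art M →* Fg P φ w := rho (P.map φ) (fun s t => Bm K w (s, t))

lemma rw_ne_one {g : Art M} {x s : S} (h : φ ((CG P g x s).coeff (FreeMonoid.ofList w)) ≠ 0) :
    rw' P φ w g ≠ 1 := by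
  intro h1
  have h2 := (rho_eq_one_iff _ _ _).1 h1
  have h3 := Cw_eq P φ w g
  rw [Cw, h2] at h3
  have h4 := congrFun (congrFun h3 x) s
  rw [Matrix.map_apply] at h4
  have h5 := fw_corner w φ (CG P g x s)
  rw [← h4] at h5
  apply h
  rw [← h5]; rfl

lemma rw_eq_one {g : Art M} (h : ∀ x s, ∀ m : FreeMonoid (S × S), m.length ≤ w.length →
    φ ((CG P g x s).coeff m) = 0) : rw' P φ w g = 1 := by
  apply (rho_eq_one_iff _ _ _).2
  have h3 := Cw_eq P φ w g
  rw [Cw] at h3
  rw [h3]
  ext1 x s
  rw [Matrix.map_apply, fw_zero w φ _ (h x s)]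
  rfl

/-! ### the filtration -/

/-- the filtration by an ideal and the degree -/
def Fil (I : Ideal A) (i : ℕ) (f : FA S A) : Prop :=
  ∀ w : FreeMonoid (S × S), f.coeff w ∈ I ^ (i - w.length)

variable {I : Ideal A}

omit [Fintype S] [DecidableEq S] in
lemma Fil.any (f : FA S A) : Fil I 0 f := by
  intro w
  rw [Nat.zero_sub, pow_zero, Ideal.one_eq_top]
  trivial

omit [Fintype S] [DecidableEq S] in
lemma Fil.zero (i : ℕ) : Fil I i (0 : FA S A) := fun w => by
  rw [MonoidAlgebra.coeff_zero]; exact Ideal.zero_mem _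

omit [Fintype S] [DecidableEq S] in
lemma Fil.add {i : ℕ} {f g : FA S A} (hf : Fil I i f) (hg : Fil I i g) : Fil I i (f + g) :=
  fun w => by
    rw [MonoidAlgebra.coeff_add, Finsupp.add_apply]; exact Ideal.add_mem _ (hf w) (hg w)

omit [Fintype S] [DecidableEq S] in
lemma Fil.sum {ι : Type*} {i : ℕ} (s : Finset ι) {f : ι → FA S A}
    (hf : ∀ k ∈ s, Fil I i (f k)) : Fil I i (∑ k ∈ s, f k) := by
  intro w
  rw [MonoidAlgebra.coeff_sum, Finsupp.finset_sum_apply]
  exact Ideal.sum_mem _ (fun k hk => hf k hk w)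

omit [Fintype S] [DecidableEq S] in
lemma Fil.mono {i j : ℕ} (h : i ≤ j) {f : FA S A} (hf : Fil I j f) : Fil I i f :=
  fun w => Ideal.pow_le_pow_right (by omega) (hf w)

omit [Fintype S] [DecidableEq S] in
lemma Fil.mul {i j : ℕ} {f g : FA S A} (hf : Fil I i f) (hg : Fil I j g) :
    Fil I (i + j) (f * g) := by
  classical
  rw [MonoidAlgebra.mul_def]
  apply Fil.sum
  intro u _
  apply Fil.sum
  intro v _
  intro w
  rw [MonoidAlgebra.coeff_single, Finsupp.single_apply]
  split_ifs with h
  · have h1 := Ideal.mul_mem_mul (hf u) (hg v)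
    rw [← pow_add] at h1
    refine Ideal.pow_le_pow_right ?_ h1
    rw [← h, FreeMonoid.length_mul]
    omega
  · exact Ideal.zero_mem _

/-- the filtration on matrices -/
def FilM (I : Ideal A) (i : ℕ) (X : Matrix S S (FA S A)) : Prop := ∀ x s, Fil I i (X x s)

lemma FilM.mul {i j : ℕ} {X Y : Matrix S S (FA S A)} (hX : FilM I i X) (hY : FilM I j Y) :
    FilM I (i + j) (X * Y) := by
  intro x s
  rw [Matrix.mul_apply]
  exact Fil.sum _ (fun k _ => (hX x k).mul (hY k s))

omit [Fintype S] [DecidableEq S] in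
lemma FilM.add {i : ℕ} {X Y : Matrix S S (FA S A)} (hX : FilM I i X) (hY : FilM I i Y) :
    FilM I i (X + Y) := fun x s => (hX x s).add (hY x s)

omit [Fintype S] [DecidableEq S] in
lemma FilM.mono {i j : ℕ} (h : i ≤ j) {X : Matrix S S (FA S A)} (hX : FilM I j X) :
    FilM I i X := fun x s => (hX x s).mono h

lemma FilM.any (X : Matrix S S (FA S A)) : FilM I 0 X := fun x s => Fil.any _

omit [Fintype S] [DecidableEq S] in
lemma FilM.nsmul {i : ℕ} {X : Matrix S S (FA S A)} (hX : FilM I i X) (n : ℕ) :
    FilM I i (n • X) := by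
  induction n with
  | zero => intro x s; rw [zero_smul]; exact Fil.zero _
  | succ n ih => rw [succ_nsmul]; exact ih.add hX

lemma pow_fil {i : ℕ} (hi : 1 ≤ i) {h : Art M} (hh : FilM I i (CG P h)) (n : ℕ) :
    ∃ Y, FilM I (i + 1) Y ∧ CG P (h ^ n) = n • CG P h + Y := by
  induction n with
  | zero =>
    refine ⟨0, fun x s => Fil.zero _, ?_⟩
    rw [pow_zero, CG, Cm_one]; simp
  | succ n ih =>
    obtain ⟨Y, hY, e⟩ := ih
    refine ⟨Y + CG P (h ^ n) * gram P (bf S A) * CG P h, ?_, ?_⟩
    · apply hY.add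
      have h1 : FilM I i (CG P (h ^ n)) := by
        rw [e]; exact (hh.nsmul n).add (hY.mono (Nat.le_succ i))
      exact ((h1.mul (FilM.any _)).mul hh).mono (by omega)
    · rw [pow_succ, CG, Cm_mul]
      change CG P (h ^ n) + CG P h + _ = _
      rw [add_comm (CG P (h ^ n)) (CG P h), succ_nsmul]
      have e' : CG P (h ^ n) * gram P (bf S A) * CG P h =
        Cm P (bf S A) (h ^ n) * gram P (bf S A) * Cm P (bf S A) h := rfl
      rw [e', e]
      abel

omit [Fintype S] [DecidableEq S] in
lemma Fil.p_smul {p : ℕ} (hp : (p : A) ∈ I) {i : ℕ} {f : FA S A} (hf : Fil I i f) :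
    Fil I (i + 1) (p • f) := by
  intro w
  have e : (p • f).coeff w = (p : A) * f.coeff w := by
    rw [MonoidAlgebra.coeff_smul, Finsupp.smul_apply, nsmul_eq_mul]
  rw [e]
  have h1 := Ideal.mul_mem_mul hp (hf w)
  rw [← pow_succ'] at h1
  exact Ideal.pow_le_pow_right (by omega) h1

lemma pow_p_fil {p : ℕ} (hp : (p : A) ∈ I) {i : ℕ} (hi : 1 ≤ i) {h : Art M}
    (hh : FilM I i (CG P h)) : FilM I (i + 1) (CG P (h ^ p)) := by
  obtain ⟨Y, hY, e⟩ := pow_fil P hi hh p
  rw [e]
  apply FilM.add _ hY
  intro x s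
  exact (hh x s).p_smul hp

lemma pow_pe_fil {p : ℕ} (hp : (p : A) ∈ I) {h : Art M}
    (hh : FilM I 1 (CG P h)) (e : ℕ) : FilM I (e + 1) (CG P (h ^ (p ^ e))) := by
  induction e with
  | zero => simpa using hh
  | succ e ih =>
    rw [pow_succ, pow_mul]
    exact pow_p_fil P hp (by omega) ih

end

section generic
variable {S : Type} [Fintype S] [DecidableEq S] {M : CoxeterMatrix S}
variable {A : Type} [CommRing A] [IsDomain A] [IsNoetherianRing A] (P : Par M A)

lemma krull {m : Ideal A} (hm : m ≠ ⊤) {c : A} (hc : c ≠ 0) : ∃ j : ℕ, c ∉ m ^ j := by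
  have hkrull := Ideal.iInf_pow_eq_bot_of_isDomain m hm
  by_contra hcon
  push Not at hcon
  apply hc
  have : c ∈ (⨅ i : ℕ, m ^ i) := by
    rw [Ideal.mem_iInf]; exact hcon
  rw [hkrull] at this
  exact this

/-- virtual residual p-finiteness, generic form -/
theorem virt_gen (hf : ∀ g : Art M, g ≠ 1 →
      ∃ (x s : S) (w : FreeMonoid (S × S)), (CG P g x s).coeff w ≠ 0)
    (m : Ideal A) (hm : m ≠ ⊤) [hfin : Finite (A ⧸ m)] (p : ℕ) (hpm : (p : A) ∈ m) :
    ∃ N : Subgroup (Art M), N.Normal ∧ N.FiniteIndex ∧ ∀ g : N, g ≠ 1 →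
      ∃ (K : Subgroup N) (_ : K.Normal), Finite (N ⧸ K) ∧ IsPGroup p (N ⧸ K) ∧ g ∉ K := by
  let φ0 : A →+* A ⧸ m := Ideal.Quotient.mk m
  let ψ0 := rw' P φ0 []
  let N := ψ0.ker
  have hN : ∀ h ∈ N, FilM m 1 (CG P h) := by
    intro h hh x s w
    by_cases hw : w = 1
    · subst hw
      have e1 : ψ0 h = 1 := hh
      have e2 : φ0 ((CG P h x s).coeff 1) = 0 := by
        by_contra hne
        exact rw_ne_one P φ0 [] hne e1
      simpa using Ideal.Quotient.eq_zero_iff_mem.1 e2
    · have : 1 ≤ w.length := by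
        rcases Nat.eq_zero_or_pos w.length with h0 | h0
        · exact absurd (FreeMonoid.length_eq_zero.1 h0) hw
        · exact h0
      have e : 1 - w.length = 0 := by omega
      rw [e, pow_zero, Ideal.one_eq_top]
      trivial
  refine ⟨N, inferInstance, ?_, ?_⟩
  · exact Subgroup.finiteIndex_ker _
  · intro g hg
    have hg' : (g : Art M) ≠ 1 := fun h => hg (Subtype.ext h)
    obtain ⟨x, s, w, hne⟩ := hf g hg'
    obtain ⟨j, hj⟩ := krull hm hne
    have hfj : Finite (A ⧸ m ^ j) := Ideal.finite_quotient_pow (IsNoetherian.noetherian m) j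
    let φ : A →+* A ⧸ m ^ j := Ideal.Quotient.mk (m ^ j)
    let ψ := rw' P φ w.toList
    refine ⟨(ψ.comp N.subtype).ker, inferInstance, ?_, ?_, ?_⟩
    · exact Finite.of_equiv _ (QuotientGroup.quotientKerEquivRange (ψ.comp N.subtype)).symm.toEquiv
    · intro q
      obtain ⟨h, rfl⟩ := QuotientGroup.mk_surjective q
      refine ⟨j + w.length, ?_⟩
      rw [← QuotientGroup.mk_pow, QuotientGroup.eq_one_iff, MonoidHom.mem_ker]
      have hh := hN h h.2
      have h1 := pow_pe_fil P hpm hh (j + w.length)
      have h2 : ψ ((h : Art M) ^ p ^ (j + w.length)) = 1 := by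
        apply rw_eq_one
        intro x s m' hm'
        change Ideal.Quotient.mk (m ^ j) _ = 0
        rw [Ideal.Quotient.eq_zero_iff_mem]
        refine Ideal.pow_le_pow_right ?_ (h1 x s m')
        have : w.toList.length = w.length := rfl
        omega
      simpa using h2
    · intro hker
      rw [MonoidHom.mem_ker] at hker
      have h2 : ψ (g : Art M) = 1 := hker
      refine rw_ne_one P φ w.toList (x := x) (s := s) ?_ h2
      rw [FreeMonoid.ofList_toList]
      intro h3
      exact hj (Ideal.Quotient.eq_zero_iff_mem.1 h3)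

/-- residual finiteness, generic form -/
theorem res_gen (m : Ideal A) (hm : m ≠ ⊤) [hfin : Finite (A ⧸ m)] {g : Art M}
    (hg : ∃ (x s : S) (w : FreeMonoid (S × S)), (CG P g x s).coeff w ≠ 0) :
    ∃ (F : Type) (_ : Group F) (_ : Finite F) (ψ : Art M →* F), ψ g ≠ 1 := by
  obtain ⟨x, s, w, hne⟩ := hg
  obtain ⟨j, hj⟩ := krull hm hne
  have hfj : Finite (A ⧸ m ^ j) := Ideal.finite_quotient_pow (IsNoetherian.noetherian m) j
  let φ : A →+* A ⧸ m ^ j := Ideal.Quotient.mk (m ^ j)
  refine ⟨Fg P φ w.toList, inferInstance, inferInstance, rw' P φ w.toList, ?_⟩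
  apply rw_ne_one (x := x) (s := s)
  rw [FreeMonoid.ofList_toList]
  intro h3
  exact hj (Ideal.Quotient.eq_zero_iff_mem.1 h3)

end generic

section final
variable {S : Type} [Fintype S] [DecidableEq S] (M : CoxeterMatrix S)

/-- virtual residual p-finiteness -/
theorem virt_res_p (hR : RankTwo M) (p : ℕ) (hp : p.Prime) :
    ∃ N : Subgroup (Art M), N.Normal ∧ N.FiniteIndex ∧ ∀ g : N, g ≠ 1 →
      ∃ (K : Subgroup N) (_ : K.Normal), Finite (N ⧸ K) ∧ IsPGroup p (N ⧸ K) ∧ g ∉ K := by
  obtain ⟨m, hm, hpm⟩ := Ideal.exists_le_maximal (Ideal.span {((p : ℕ) : AA M)})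
    (fun h => prime_not_unit M p hp (Ideal.span_singleton_eq_top.1 h))
  have hpm' : ((p : ℕ) : AA M) ∈ m := hpm (Ideal.mem_span_singleton_self _)
  have hfin : Finite (AA M ⧸ m) := residue_finite (AA M) m
  exact virt_gen (PA M) (fun g hg => faithful_base M hR hg) m hm.ne_top p hpm'

/-- residual finiteness: every nontrivial element survives in a finite group -/
theorem res_finite (hR : RankTwo M) {g : Art M} (hg : g ≠ 1) :
    ∃ (F : Type) (_ : Group F) (_ : Finite F) (ψ : Art M →* F), ψ g ≠ 1 := by
  obtain ⟨m, hm, hpm⟩ := Ideal.exists_le_maximal (Ideal.span {((2 : ℕ) : AA M)})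
    (fun h => prime_not_unit M 2 Nat.prime_two (Ideal.span_singleton_eq_top.1 h))
  have hfin : Finite (AA M ⧸ m) := residue_finite (AA M) m
  exact res_gen (PA M) m hm.ne_top (faithful_base M hR hg)

end final

end Pool.Agent.TH107.RF
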